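import Pool.Agent.Lib.HULL.MaxP

open MvPolynomial Filter Topology

namespace Pool.Agent.HULL

variable {E σ : Type*} [Fintype σ] [NormedAddCommGroup E] [NormedSpace ℂ E]

def NoPeak (X : Set E) (y : E) : Prop :=
  ∀ G : E → ℂ, AnalyticAt ℂ G y → ¬ ∀ᶠ x in 𝓝 y, x ∈ X → x ≠ y → (G x).re < (G y).re

theorem NoPeak.mono {X Z : Set E} {y : E} (h : NoPeak X y) (hZ : ∀ᶠ x in 𝓝 y, x ∈ X → x ∈ Z) :
    NoPeak Z y := fun G hG hp =>
  h G hG (by filter_upwards [hp, hZ] with x a b hx using a (b hx))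

theorem ev_of_cont {Z : Set E} {y : E} {F : Type*} [TopologicalSpace F] {f : E → F}
    (hf : ContinuousWithinAt f Z y) {U : Set F} (hU : U ∈ 𝓝 (f y)) :
    ∀ᶠ x in 𝓝 y, x ∈ Z → f x ∈ U :=
  eventually_nhdsWithin_iff.1 (hf hU)

theorem maxp' (c : E ≃L[ℂ] (σ → ℂ)) {Z : Set E} (hZ : IsCompact Z) {ψ : E → ℝ}
    (hψ : ContinuousOn ψ Z) {b : ℝ}
    (H : ∀ y ∈ Z, b < ψ y → NoPeak Z y ∧ ∃ G : E → ℂ, AnalyticAt ℂ G y ∧ (G y).re = ψ y ∧
        ∀ᶠ x in 𝓝 y, x ∈ Z → (G x).re ≤ ψ x) : ∀ y ∈ Z, ψ y ≤ b :=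
  maxp c (X := Z) hZ hψ fun y hy hb => by
    obtain ⟨h1, G, h2, h3, h4⟩ := H y hy hb
    exact ⟨h1, G, h2, h3, by filter_upwards [h4] with x a hx using ⟨hx, a hx⟩⟩

theorem maxre (c : E ≃L[ℂ] (σ → ℂ)) {Z : Set E} (hZ : IsCompact Z) {ψ : E → ℝ}
    (hψ : ContinuousOn ψ Z) {b : ℝ}
    (H : ∀ y ∈ Z, b < ψ y → NoPeak Z y ∧ ∃ G : E → ℂ, AnalyticAt ℂ G y ∧
        ∀ᶠ x in 𝓝 y, x ∈ Z → ψ x = (G x).re) : ∀ y ∈ Z, ψ y ≤ b :=
  maxp' c hZ hψ fun y hy hb => by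
    obtain ⟨h1, G, h2, h3⟩ := H y hy hb
    exact ⟨h1, G, h2, (h3.self_of_nhds hy).symm,
      by filter_upwards [h3] with x a hx using (a hx).ge⟩

theorem tr (c : E ≃L[ℂ] (σ → ℂ)) {Z B : Set E} (hZ : IsCompact Z)
    (hN : ∀ y ∈ Z, y ∉ B → NoPeak Z y) {Q : E → ℂ} (hQc : ContinuousOn Q Z)
    (hQ : ∀ y ∈ Z, y ∉ B → AnalyticAt ℂ Q y) {ε m : ℝ} (hε : 0 < ε)
    (hI : ∀ y ∈ Z, |(Q y).im| ≤ ε) {ω : E → ℝ} (hωc : ContinuousOn ω Z)
    (hω : ∀ y ∈ Z, y ∉ B → ∃ G : E → ℂ, AnalyticAt ℂ G y ∧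
      ∀ᶠ x in 𝓝 y, x ∈ Z → ω x = (G x).re)
    (hB : ∀ y ∈ Z, y ∈ B → ω y ≤ 0 ∨ (ω y ≤ 1 ∧ (Q y).re ≤ m)) :
    ∀ y ∈ Z, ω y ≤ 2 * Real.exp ((m - (Q y).re) / ε) := by
  have hre : ∀ y, (Complex.exp (-(Q y) / ε)).re =
      Real.exp (-(Q y).re / ε) * Real.cos (-(Q y).im / ε) := by
    intro y
    rw [Complex.exp_re, Complex.div_ofReal_re, Complex.div_ofReal_im, Complex.neg_re,
      Complex.neg_im]
  have key := maxre c hZ (ψ := fun x => Real.exp (-m / ε) * ω x / 2 -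
      (Complex.exp (-(Q x) / ε)).re) (b := 0)
    (((continuousOn_const.mul hωc).div_const 2).sub
      (Complex.continuous_re.comp_continuousOn (hQc.neg.div_const _).cexp)) (by
    intro y hy hb
    have hyB : y ∉ B := by
      intro hyB
      have hcos : 1 / 2 ≤ Real.cos (-(Q y).im / ε) := by
        have h1 : |-(Q y).im / ε| ≤ 1 := by
          rw [abs_div, abs_neg, abs_of_pos hε, div_le_one hε]; exact hI y hy
        have h2 := Real.one_sub_sq_div_two_le_cos (x := -(Q y).im / ε)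
        have h3 : (-(Q y).im / ε) ^ 2 ≤ 1 := by rw [← sq_abs]; nlinarith [abs_nonneg (-(Q y).im / ε)]
        linarith
      rw [hre] at hb
      have e1 := Real.exp_pos (-(Q y).re / ε)
      have e2 := Real.exp_pos (-m / ε)
      rcases hB y hy hyB with h | ⟨h, h'⟩
      · nlinarith [mul_nonneg e2.le (neg_nonneg.2 h)]
      · have e3 : Real.exp (-m / ε) ≤ Real.exp (-(Q y).re / ε) :=
          Real.exp_le_exp.2 (div_le_div_of_nonneg_right (by linarith) hε.le)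
        nlinarith [mul_nonneg e2.le (sub_nonneg.2 h)]
    obtain ⟨G, hG, hG'⟩ := hω y hy hyB
    refine ⟨hN y hy hyB, fun x => (Real.exp (-m / ε) : ℂ) * G x / 2 - Complex.exp (-(Q x) / ε),
      ((analyticAt_const.mul hG).div_const).sub ((hQ y hy hyB).neg.div_const).cexp, ?_⟩
    filter_upwards [hG'] with x a hx
    rw [a hx, Complex.sub_re, Complex.div_ofNat_re, Complex.re_ofReal_mul])
  intro y hy
  have h1 := key y hy
  simp only [hre] at h1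
  have e1 := Real.exp_pos (-(Q y).re / ε)
  have e2 := Real.exp_pos (-m / ε)
  have h2 : Real.exp (-m / ε) * ω y ≤ 2 * Real.exp (-(Q y).re / ε) := by
    nlinarith [Real.cos_le_one (-(Q y).im / ε)]
  have h3 : Real.exp (-(Q y).re / ε) = Real.exp (-m / ε) * Real.exp ((m - (Q y).re) / ε) := by
    rw [← Real.exp_add]; congr 1; ring
  rw [h3] at h2
  exact le_of_mul_le_mul_left (by linarith) e2

theorem tr_log (c : E ≃L[ℂ] (σ → ℂ)) {Z B : Set E} (hZ : IsCompact Z)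
    (hN : ∀ y ∈ Z, y ∉ B → NoPeak Z y) {Q : E → ℂ} (hQc : ContinuousOn Q Z)
    (hQ : ∀ y ∈ Z, y ∉ B → AnalyticAt ℂ Q y) {ε m : ℝ} (hε : 0 < ε)
    (hI : ∀ y ∈ Z, |(Q y).im| ≤ ε) {ω : E → ℝ} (hωc : ContinuousOn ω Z)
    (hω : ∀ y ∈ Z, y ∉ B → ∃ G : E → ℂ, AnalyticAt ℂ G y ∧
      ∀ᶠ x in 𝓝 y, x ∈ Z → ω x = (G x).re)
    (hB : ∀ y ∈ Z, y ∈ B → ω y ≤ 0 ∨ (ω y ≤ 1 ∧ (Q y).re ≤ m)) :
    ∀ y ∈ Z, 0 < ω y → (Q y).re ≤ m + ε * Real.log (2 / ω y) := by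
  intro y hy h0
  have h1 := tr c hZ hN hQc hQ hε hI hωc hω hB y hy
  have h2 : Real.log (ω y / 2) ≤ (m - (Q y).re) / ε := by
    rw [Real.log_le_iff_le_exp (by positivity)]; linarith
  rw [le_div_iff₀ hε] at h2
  rw [← inv_div, Real.log_inv]; linarith

theorem isClosed_sector {Z : Set E} (hZ : IsClosed Z) {Q : E → ℂ} (hQc : ContinuousOn Q Z)
    {g : ℝ} (hg : g < Real.pi) :
    IsClosed {y | y ∈ Z ∧ 1 ≤ ‖Q y‖ ∧ |(Q y).arg| ≤ g} := by
  by_cases hg0 : 0 ≤ g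
  swap
  · have : {y | y ∈ Z ∧ 1 ≤ ‖Q y‖ ∧ |(Q y).arg| ≤ g} = ∅ :=
      Set.eq_empty_of_forall_notMem fun y h => hg0 ((abs_nonneg _).trans h.2.2)
    rw [this]; exact isClosed_empty
  have : {y | y ∈ Z ∧ 1 ≤ ‖Q y‖ ∧ |(Q y).arg| ≤ g} =
      Z ∩ Q ⁻¹' {w | 1 ≤ ‖w‖ ∧ ‖w‖ * Real.cos g ≤ w.re} := by
    ext y
    simp only [Set.mem_ofPred_eq, Set.mem_inter_iff, Set.mem_preimage]
    refine and_congr_right fun _ => and_congr_right fun h1 => ?_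
    have h0 : 0 < ‖Q y‖ := by linarith
    rw [← Complex.norm_mul_cos_arg (Q y), mul_le_mul_iff_right₀ h0, ← Real.cos_abs (Q y).arg]
    exact (Real.strictAntiOn_cos.le_iff_ge ⟨hg0, hg.le⟩
      ⟨abs_nonneg _, Complex.abs_arg_le_pi _⟩).symm
  rw [this]
  exact hQc.preimage_isClosed_of_isClosed hZ
    ((isClosed_le continuous_const continuous_norm).inter
      (isClosed_le (by fun_prop) Complex.continuous_re))

theorem slit_of_arg {w : ℂ} {g : ℝ} (hg : g < Real.pi) (h1 : 1 ≤ ‖w‖) (h2 : |w.arg| ≤ g) :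
    w ∈ Complex.slitPlane :=
  Complex.mem_slitPlane_iff_arg.2 ⟨fun h => by
    rw [h, abs_of_pos Real.pi_pos] at h2; linarith, fun h => by
    rw [h, norm_zero] at h1; linarith⟩

theorem ev_sector {Z : Set E} {Q : E → ℂ} {y : E} (hQ : ContinuousWithinAt Q Z y) {g g' : ℝ}
    (hg : g < Real.pi) (h1 : 1 < ‖Q y‖) (h2 : |(Q y).arg| ≤ g) (h3 : |(Q y).arg| < g') :
    ∀ᶠ x in 𝓝 y, x ∈ Z → 1 < ‖Q x‖ ∧ |(Q x).arg| < g' := by
  have a := ev_of_cont hQ.norm (lt_mem_nhds h1)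
  have b := ev_of_cont ((Complex.continuousAt_arg (slit_of_arg hg h1.le h2)).comp_continuousWithinAt
    hQ).abs (gt_mem_nhds h3)
  filter_upwards [a, b] with x a b hx using ⟨a hx, b hx⟩

theorem sec (c : E ≃L[ℂ] (σ → ℂ)) {Z B : Set E} (hZ : IsCompact Z)
    (hN : ∀ y ∈ Z, y ∉ B → NoPeak Z y) {Q : E → ℂ} (hQc : ContinuousOn Q Z)
    (hQ : ∀ y ∈ Z, y ∉ B → AnalyticAt ℂ Q y) {g : ℝ} (hg0 : 0 < g) (hg : g < Real.pi)
    (hB : ∀ y ∈ Z, y ∈ B → ‖Q y‖ ≤ 1 ∨ g ≤ |(Q y).arg|) :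
    ∀ y ∈ Z, ‖Q y‖ ≤ 1 ∨ g ≤ |(Q y).arg| := by
  set k : ℝ := Real.pi / 2 / g with hk
  have hk0 : 0 < k := by have := Real.pi_pos; positivity
  set Z' : Set E := {y | y ∈ Z ∧ 1 ≤ ‖Q y‖ ∧ |(Q y).arg| ≤ g} with hZ'
  have hc : IsCompact Z' :=
    hZ.of_isClosed_subset (isClosed_sector hZ.isClosed hQc hg) fun y h => h.1
  have hre : ∀ w : ℂ, (Complex.sinh (k * Complex.log w)).re =
      Real.sinh (k * Real.log ‖w‖) * Real.cos (k * w.arg) := by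
    intro w
    have e : (k : ℂ) * Complex.log w =
        ((k * Real.log ‖w‖ : ℝ) : ℂ) + ((k * w.arg : ℝ) : ℂ) * Complex.I := by
      apply Complex.ext <;> simp [Complex.log_re, Complex.log_im]
    rw [e, Complex.sinh_add, Complex.cosh_mul_I, Complex.sinh_mul_I, ← Complex.ofReal_sinh,
      ← Complex.ofReal_cosh, ← Complex.ofReal_cos, ← Complex.ofReal_sin]
    simp only [Complex.add_re, Complex.mul_re, Complex.ofReal_re, Complex.ofReal_im,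
      Complex.I_re, Complex.I_im, Complex.mul_im]
    ring
  have hkg : k * g = Real.pi / 2 := by rw [hk]; field_simp
  have key := maxre c hc (ψ := fun x => (Complex.sinh (k * Complex.log (Q x))).re) (b := 0)
    (Complex.continuous_re.comp_continuousOn (Complex.continuous_sinh.comp_continuousOn
      (continuousOn_const.mul ((hQc.mono fun y h => h.1).clog
        fun y h => slit_of_arg hg h.2.1 h.2.2)))) (by
    intro y hy hb
    rw [hre] at hb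
    have h1 : 1 < ‖Q y‖ := by
      rcases hy.2.1.lt_or_eq with h | h
      · exact h
      · rw [← h] at hb; simp at hb
    have h2 : |(Q y).arg| < g := by
      rcases hy.2.2.lt_or_eq with h | h
      · exact h
      · rw [← Real.cos_abs, abs_mul, abs_of_pos hk0, h, hkg] at hb; simp at hb
    have hyB : y ∉ B := fun hyB => by
      rcases hB y hy.1 hyB with h | h <;> linarith
    refine ⟨(hN y hy.1 hyB).mono ?_, fun x => Complex.sinh (k * Complex.log (Q x)), ?_,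
      Eventually.of_forall fun _ _ => rfl⟩
    · filter_upwards [ev_sector (hQc y hy.1) hg h1 hy.2.2 h2] with x a hx
      exact ⟨hx, (a hx).1.le, (a hx).2.le⟩
    · exact Complex.analyticAt_sinh.fun_comp (analyticAt_const.mul
        ((hQ y hy.1 hyB).clog (slit_of_arg hg hy.2.1 hy.2.2))))
  intro y hy
  by_contra hcon
  push Not at hcon
  have h1 := key y ⟨hy, hcon.1.le, hcon.2.le⟩
  simp only [hre] at h1
  have a : 0 < Real.sinh (k * Real.log ‖Q y‖) :=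
    Real.sinh_pos_iff.2 (mul_pos hk0 (Real.log_pos hcon.1))
  have b : 0 < Real.cos (k * (Q y).arg) := by
    have := abs_lt.1 hcon.2
    apply Real.cos_pos_of_mem_Ioo
    constructor <;> nlinarith
  nlinarith [mul_pos a b]

theorem conf (c : E ≃L[ℂ] (σ → ℂ)) {Z B : Set E} (hZ : IsCompact Z)
    (hN : ∀ y ∈ Z, y ∉ B → NoPeak Z y) {Q : E → ℂ} (hQc : ContinuousOn Q Z)
    (hQ : ∀ y ∈ Z, y ∉ B → AnalyticAt ℂ Q y) {ε ε' : ℝ} (hε : 0 < ε) (hε' : ε < ε')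
    (hπ : ε < Real.pi) (hgap : ∀ y ∈ Z, 1 < ‖Q y‖ → |(Q y).arg| ≤ ε ∨ ε' ≤ |(Q y).arg|)
    {u : E → ℝ} (huc : ContinuousOn u Z)
    (hu : ∀ y ∈ Z, y ∉ B → ∃ G : E → ℂ, AnalyticAt ℂ G y ∧
      ∀ᶠ x in 𝓝 y, x ∈ Z → u x = (G x).re) {h t : ℝ} (ht : t < h)
    (hh : ∀ y ∈ Z, ‖Q y‖ = 1 → |(Q y).arg| ≤ ε → u y ≤ h)
    (hB : ∀ y ∈ Z, y ∈ B → 1 < ‖Q y‖ → |(Q y).arg| ≤ ε → u y ≤ t) {a : ℝ} (ha : 0 ≤ a) :
    ∀ y ∈ Z, Real.exp a ≤ ‖Q y‖ → |(Q y).arg| ≤ ε →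
      u y ≤ t + 2 * (h - t) * Real.exp (-a / ε) := by
  set Z' : Set E := {y | y ∈ Z ∧ 1 ≤ ‖Q y‖ ∧ |(Q y).arg| ≤ ε} with hZ'
  have hc : IsCompact Z' :=
    hZ.of_isClosed_subset (isClosed_sector hZ.isClosed hQc hπ) fun y h => h.1
  have hht : 0 < h - t := sub_pos.2 ht
  have hnb : ∀ y ∈ Z', y ∉ B ∪ {x | ‖Q x‖ = 1} → y ∉ B ∧ 1 < ‖Q y‖ := fun y hy hn =>
    ⟨fun h => hn (Or.inl h), lt_of_le_of_ne hy.2.1 fun h => hn (Or.inr h.symm)⟩
  have key := tr c (B := B ∪ {x | ‖Q x‖ = 1}) hc (Q := fun x => Complex.log (Q x)) (m := 0)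
    (ω := fun x => (u x - t) / (h - t)) (ε := ε)
    (by
      intro y hy hn
      obtain ⟨h1, h2⟩ := hnb y hy hn
      refine (hN y hy.1 h1).mono ?_
      filter_upwards [ev_sector (hQc y hy.1) hπ h2 hy.2.2 (hy.2.2.trans_lt hε')] with x a hx
      exact ⟨hx, (a hx).1.le, (hgap x hx (a hx).1).resolve_right (not_le.2 (a hx).2)⟩)
    ((hQc.mono fun y h => h.1).clog fun y h => slit_of_arg hπ h.2.1 h.2.2)
    (fun y hy hn => (hQ y hy.1 (hnb y hy hn).1).clog (slit_of_arg hπ hy.2.1 hy.2.2)) hε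
    (fun y hy => by rw [Complex.log_im]; exact hy.2.2)
    (((huc.mono fun y h => h.1).sub continuousOn_const).div_const _)
    (by
      intro y hy hn
      obtain ⟨G, hG, hG'⟩ := hu y hy.1 (hnb y hy hn).1
      refine ⟨fun x => (G x - t) / ((h - t : ℝ) : ℂ), (hG.sub analyticAt_const).div_const, ?_⟩
      filter_upwards [hG'] with x a hx
      rw [a hx.1, Complex.div_ofReal_re, Complex.sub_re, Complex.ofReal_re])
    (by
      intro y hy hb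
      by_cases h1 : ‖Q y‖ = 1
      · refine Or.inr ⟨(div_le_one hht).2 (by linarith [hh y hy.1 h1 hy.2.2]), ?_⟩
        rw [Complex.log_re, h1, Real.log_one]
      · left
        have := hB y hy.1 (hb.resolve_right h1) (lt_of_le_of_ne hy.2.1 (Ne.symm h1)) hy.2.2
        exact div_nonpos_of_nonpos_of_nonneg (by linarith) hht.le)
  intro y hy h1 h2
  have h3 := key y ⟨hy, (Real.one_le_exp ha).trans h1, h2⟩
  rw [div_le_iff₀ hht, Complex.log_re] at h3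
  have h4 : a ≤ Real.log ‖Q y‖ := (Real.le_log_iff_exp_le ((Real.exp_pos a).trans_le h1)).2 h1
  have h5 : Real.exp ((0 - Real.log ‖Q y‖) / ε) ≤ Real.exp (-a / ε) :=
    Real.exp_le_exp.2 (div_le_div_of_nonneg_right (by linarith) hε.le)
  nlinarith

end Pool.Agent.HULL
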