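import Pool.Agent.Lib.HULL.Lbt

open Filter Topology

namespace Pool.Agent.HULL

noncomputable def c2 : (ℂ × ℂ) ≃L[ℂ] (Fin 2 → ℂ) := (ContinuousLinearEquiv.finTwoArrow ℂ ℂ).symm

theorem c2_apply (x : ℂ × ℂ) : c2 x = ![x.1, x.2] := rfl

def hull (K : Set (ℂ × ℂ)) : Set (ℂ × ℂ) :=
  {x | ∀ (p : MvPolynomial (Fin 2) ℂ) (M : ℝ),
    (∀ y ∈ K, ‖MvPolynomial.eval ![y.1, y.2] p‖ ≤ M) → ‖MvPolynomial.eval ![x.1, x.2] p‖ ≤ M}

theorem hull_eq (K : Set (ℂ × ℂ)) : hull K = Hull c2 K := rfl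

theorem subset_hull2 (K : Set (ℂ × ℂ)) : K ⊆ hull K := subset_hull c2 K

theorem hull_sub2 {K Y : Set (ℂ × ℂ)} (h : K ⊆ hull Y) : hull K ⊆ hull Y := hull_sub (c := c2) h

theorem hull_mono {K Y : Set (ℂ × ℂ)} (h : K ⊆ Y) : hull K ⊆ hull Y :=
  hull_sub2 (h.trans (subset_hull2 Y))

theorem isCompact_hull2 {K : Set (ℂ × ℂ)} (hK : IsCompact K) : IsCompact (hull K) :=
  isCompact_hull c2.toHomeomorph hK

theorem usc2 {Y N : Set (ℂ × ℂ)} (hY : IsCompact Y) (hN : IsOpen N) (h : hull Y ⊆ N) :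
    ∃ η > 0, ∀ Y' ⊆ Metric.thickening η Y, hull Y' ⊆ N := by
  obtain ⟨η, a, b⟩ := usc c2.toHomeomorph hY hN h
  exact ⟨η, a, fun Y' hY' => (hull_mono hY').trans b⟩

variable {E : Type*} [NormedAddCommGroup E] [NormedSpace ℂ E]

structure LM (X K O : Set E) : Prop where
  isOpen : IsOpen O
  closed : ∀ y ∈ O, y ∈ closure X → y ∈ X
  noPeak : ∀ y ∈ X, y ∈ O → y ∉ K → NoPeak X y

theorem lm_hull {Y : Set (ℂ × ℂ)} (hY : IsCompact Y) : LM (hull Y) Y Set.univ :=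
  ⟨isOpen_univ, fun _ _ h => (isCompact_hull2 hY).isClosed.closure_subset h,
    fun _ hy _ hyY _ hG => rossi c2 hY hy hyY hG⟩

theorem LM.mono {X K O K' O' : Set E} (h : LM X K O) (hO : IsOpen O') (h1 : O' ⊆ O)
    (h2 : ∀ y ∈ X, y ∈ O' → y ∈ K → y ∈ K') : LM X K' O' :=
  ⟨hO, fun y hy => h.closed y (h1 hy),
    fun y hy hy' hK => h.noPeak y hy (h1 hy') fun a => hK (h2 y hy hy' a)⟩

theorem LM.part {X K O X1 : Set E} (h : LM X K O) (h1 : X1 ⊆ X)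
    (h2 : ∀ y ∈ O, y ∈ closure X1 → y ∈ X1)
    (h3 : ∀ y ∈ X1, y ∈ O → y ∉ K → ∀ᶠ x in 𝓝 y, x ∈ X → x ∈ X1) : LM X1 K O :=
  ⟨h.isOpen, h2, fun y hy hO hK => (h.noPeak y (h1 hy) hO hK).mono (h3 y hy hO hK)⟩

theorem LM.pull {E' : Type*} [NormedAddCommGroup E'] [NormedSpace ℂ E'] [CompleteSpace E']
    {X K O : Set E} (h : LM X K O) {O' : Set E'} (hO : IsOpen O') {φ : E' → E}
    (hm : ∀ y ∈ O', φ y ∈ O) (hφ : ∀ y ∈ O', AnalyticAt ℂ φ y)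
    (hi : ∀ y ∈ O', ∃ i : E' ≃L[ℂ] E, fderiv ℂ φ y = i) : LM (φ ⁻¹' X) (φ ⁻¹' K) O' := by
  refine ⟨hO, fun y hy hc => h.closed _ (hm y hy) ?_, fun y hy hy' hK => ?_⟩
  · exact mem_closure_image (hφ y hy).continuousAt hc |> closure_mono (Set.image_preimage_subset _ _)
  · obtain ⟨i, hi⟩ := hi y hy'
    exact (h.noPeak _ hy (hm y hy') hK).pull' (hφ y hy') i hi

theorem LM.compact {X K O W : Set E} (h : LM X K O) (hW : IsCompact W) (hO : W ⊆ O) :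
    IsCompact (X ∩ W) := by
  refine hW.of_isClosed_subset ?_ Set.inter_subset_right
  refine isClosed_of_closure_subset fun y hy => ?_
  have h1 : y ∈ W := hW.isClosed.closure_subset (closure_mono Set.inter_subset_right hy)
  exact ⟨h.closed y (hO h1) (closure_mono Set.inter_subset_left hy), h1⟩

theorem LM.region {X K O W : Set E} (h : LM X K O) (hO : W ⊆ O) :
    ∀ y ∈ X ∩ W, y ∉ K ∪ (interior W)ᶜ → NoPeak (X ∩ W) y := by
  intro y hy hn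
  have h1 : y ∈ interior W := by
    by_contra a; exact hn (Or.inr a)
  refine (h.noPeak y hy.1 (hO hy.2) fun a => hn (Or.inl a)).mono ?_
  filter_upwards [mem_interior_iff_mem_nhds.1 h1] with x a hx using ⟨hx, a⟩

theorem LM.maxp {X K O W : Set (ℂ × ℂ)} (h : LM X K O) (hW : IsCompact W) (hO : W ⊆ O)
    {ψ : ℂ × ℂ → ℝ} (hψ : ContinuousOn ψ (X ∩ W)) {b : ℝ}
    (hb : ∀ y ∈ X, y ∈ W → y ∈ K ∨ y ∉ interior W → ψ y ≤ b)
    (H : ∀ y ∈ X, y ∈ interior W → y ∉ K → b < ψ y → ∃ G : ℂ × ℂ → ℂ, AnalyticAt ℂ G y ∧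
      (G y).re = ψ y ∧ ∀ᶠ x in 𝓝 y, x ∈ X → (G x).re ≤ ψ x) :
    ∀ y ∈ X, y ∈ W → ψ y ≤ b := by
  intro y hy hyW
  refine maxp' c2 (h.compact hW hO) hψ (fun y hy hlt => ?_) y ⟨hy, hyW⟩
  have hn : y ∉ K ∪ (interior W)ᶜ := fun a => absurd (hb y hy.1 hy.2 a) (not_le.2 hlt)
  obtain ⟨G, a1, a2, a3⟩ := H y hy.1 (by by_contra a; exact hn (Or.inr a))
    (fun a => hn (Or.inl a)) hlt
  exact ⟨h.region hO y hy hn, G, a1, a2, by filter_upwards [a3] with x a hx using a hx.1⟩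

theorem abs_support {F : E → ℂ} {y : E} (hF : AnalyticAt ℂ F y) :
    ∃ G : E → ℂ, AnalyticAt ℂ G y ∧ (G y).re = ‖F y‖ ∧ ∀ x, (G x).re ≤ ‖F x‖ := by
  obtain ⟨u, hu, h⟩ : ∃ u : ℂ, ‖u‖ = 1 ∧ (u * F y).re = ‖F y‖ := by
    refine ⟨Complex.exp (-(F y).arg * Complex.I), ?_, ?_⟩
    · rw [← Complex.ofReal_neg, Complex.norm_exp_ofReal_mul_I]
    · conv_lhs => rw [← Complex.norm_mul_exp_arg_mul_I (F y)]
      rw [Complex.norm_mul_exp_arg_mul_I (F y)]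
      have : Complex.exp (-(F y).arg * Complex.I) * F y = ‖F y‖ := by
        nth_rewrite 2 [← Complex.norm_mul_exp_arg_mul_I (F y)]
        rw [mul_left_comm, ← Complex.exp_add]; simp
      rw [this, Complex.ofReal_re]
  refine ⟨fun x => u * F x, analyticAt_const.mul hF, h, fun x => ?_⟩
  refine (Complex.re_le_norm _).trans ?_
  rw [norm_mul, hu, one_mul]

theorem maxabs {σ : Type*} [Fintype σ] (c : E ≃L[ℂ] (σ → ℂ)) {Z : Set E} (hZ : IsCompact Z)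
    {ψ : E → ℝ} (hψ : ContinuousOn ψ Z) {b : ℝ}
    (H : ∀ y ∈ Z, b < ψ y → NoPeak Z y ∧ ∃ F : E → ℂ, AnalyticAt ℂ F y ∧
        ∀ᶠ x in 𝓝 y, x ∈ Z → ψ x = ‖F x‖) : ∀ y ∈ Z, ψ y ≤ b :=
  maxp' c hZ hψ fun y hy hb => by
    obtain ⟨h1, F, h2, h3⟩ := H y hy hb
    obtain ⟨G, a1, a2, a3⟩ := abs_support h2
    exact ⟨h1, G, a1, by rw [a2, h3.self_of_nhds hy],
      by filter_upwards [h3] with x a hx using (a hx).symm ▸ a3 x⟩

end Pool.Agent.HULL
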