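import Pool.Agent.Lib.HULL.Barrier

open Filter Topology ComplexConjugate

namespace Pool.Agent.HULL

variable {E σ : Type*} [Fintype σ] [NormedAddCommGroup E] [NormedSpace ℂ E]

theorem NoPeak.pull {E' : Type*} [NormedAddCommGroup E'] [NormedSpace ℂ E'] {X : Set E}
    {φ : E' → E} {ψ : E → E'} {y : E'} (h : NoPeak X (φ y)) (hψ : AnalyticAt ℂ ψ (φ y))
    (h0 : ψ (φ y) = y) (h1 : ∀ᶠ x in 𝓝 (φ y), φ (ψ x) = x) : NoPeak (φ ⁻¹' X) y := by
  intro G hG hp
  have ht : Tendsto ψ (𝓝 (φ y)) (𝓝 y) := by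
    have := hψ.continuousAt.tendsto
    rwa [h0] at this
  refine h (fun x => G (ψ x)) (AnalyticAt.fun_comp (by rw [h0]; exact hG) hψ) ?_
  filter_upwards [h1, ht.eventually hp] with x a b hx hne
  rw [h0]
  exact b (by rw [Set.mem_preimage, a]; exact hx) fun e => hne (by rw [← a, e])

theorem NoPeak.pull' {E' : Type*} [NormedAddCommGroup E'] [NormedSpace ℂ E'] [CompleteSpace E']
    {X : Set E} {φ : E' → E} {y : E'} (h : NoPeak X (φ y)) (hφ : AnalyticAt ℂ φ y)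
    (i : E' ≃L[ℂ] E) (hi : fderiv ℂ φ y = i) : NoPeak (φ ⁻¹' X) y := by
  have hs : HasStrictFDerivAt φ (i : E' →L[ℂ] E) y := hi ▸ hφ.hasStrictFDerivAt
  exact h.pull (ψ := hs.localInverse φ i y)
    ((hs.toOpenPartialHomeomorph φ).analyticAt_symm' hs.mem_toOpenPartialHomeomorph_source hφ hi)
    hs.localInverse_apply_image hs.eventually_right_inverse

theorem lbt_graph (c : E ≃L[ℂ] (σ → ℂ)) {Z K : Set E} (hZ : IsCompact Z) {z w : E → ℂ}
    (hz : ∀ y ∈ Z, AnalyticAt ℂ z y) (hw : ∀ y ∈ Z, AnalyticAt ℂ w y) {y0 : E} (hy0 : y0 ∈ Z)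
    {f : ℂ → ℂ} {a b : ℂ} (hb : b ≠ 0) {r : ℝ} (hr : 0 < r)
    (hf : ∀ t, ‖t - z y0‖ ≤ r → ‖f t - f (z y0) - (a * (t - z y0) + b * conj (t - z y0))‖ ≤
      ‖b‖ / 4 * ‖t - z y0‖)
    (hη : ∀ y ∈ Z, ‖z y - z y0‖ ≤ r → ‖w y - f (z y)‖ ≤ ‖b‖ / 4 * r)
    (hK : ∀ y ∈ Z, y ∈ K → ‖z y - z y0‖ ≤ r → w y = f (z y))
    (hN : ∀ y ∈ Z, y ∉ K → ‖z y - z y0‖ < r → NoPeak Z y) : w y0 = f (z y0) := by
  have hb0 : 0 < ‖b‖ := norm_pos_iff.2 hb
  set U : E → ℂ := fun y => (w y - f (z y0) - a * (z y - z y0)) / b with hU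
  set k : ℂ := conj (U y0) with hk
  set G : E → ℂ := fun y => k * U y - conj k * (z y - z y0) - (z y - z y0) * U y with hG
  have hUa : ∀ y ∈ Z, AnalyticAt ℂ U y := fun y hy =>
    (((hw y hy).sub analyticAt_const).sub
      (analyticAt_const.mul ((hz y hy).sub analyticAt_const))).div_const
  have hGa : ∀ y ∈ Z, AnalyticAt ℂ G y := fun y hy =>
    ((analyticAt_const.mul (hUa y hy)).sub
      (analyticAt_const.mul ((hz y hy).sub analyticAt_const))).sub
      (((hz y hy).sub analyticAt_const).mul (hUa y hy))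
  have hzc : ContinuousOn (fun y => ‖z y - z y0‖) Z := fun y hy =>
    ((hz y hy).continuousAt.sub continuousAt_const).norm.continuousWithinAt
  set Z' : Set E := Z ∩ (fun y => ‖z y - z y0‖) ⁻¹' Set.Iic r with hZ'
  have hc : IsCompact Z' := hZ.of_isClosed_subset
    (hzc.preimage_isClosed_of_isClosed hZ.isClosed isClosed_Iic) Set.inter_subset_left
  have hbound : ∀ y, ‖z y - z y0‖ ≤ r → (G y).re ≤
      (‖k‖ + ‖z y - z y0‖) * (‖z y - z y0‖ / 4 + ‖w y - f (z y)‖ / ‖b‖) - ‖z y - z y0‖ ^ 2 := by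
    intro y hy
    set t : ℂ := z y - z y0 with ht
    set e : ℂ := U y - conj t with he
    have h1 : ‖e‖ ≤ ‖t‖ / 4 + ‖w y - f (z y)‖ / ‖b‖ := by
      have : e = (f (z y) - f (z y0) - (a * t + b * conj t)) / b + (w y - f (z y)) / b := by
        rw [he, hU]; field_simp; ring
      rw [this]
      refine (norm_add_le _ _).trans (add_le_add ?_ (by rw [norm_div]))
      rw [norm_div, div_le_iff₀ hb0]
      linarith [hf (z y) hy]
    have h2 : (G y).re = ((k - t) * e).re - ‖t‖ ^ 2 := by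
      have : U y = conj t + e := by rw [he]; ring
      simp only [hG, ← ht]
      rw [this, Complex.sq_norm, Complex.normSq_apply]
      simp; ring
    have h3 : ((k - t) * e).re ≤ (‖k‖ + ‖t‖) * ‖e‖ := by
      refine (Complex.re_le_norm _).trans ?_
      rw [norm_mul]; exact mul_le_mul_of_nonneg_right (norm_sub_le _ _) (norm_nonneg _)
    have h4 := mul_le_mul_of_nonneg_left h1 (show 0 ≤ ‖k‖ + ‖t‖ by positivity)
    linarith
  have hk1 : ‖k‖ ≤ r / 4 := by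
    rw [hk, Complex.norm_conj, hU]
    simp only [sub_self, mul_zero, sub_zero, norm_div]
    rw [div_le_iff₀ hb0]
    linarith [hη y0 hy0 (by simp [hr.le])]
  have key := maxre c hc (ψ := fun y => (G y).re) (b := ‖k‖ ^ 2 / 16)
    (Complex.continuous_re.comp_continuousOn fun y hy =>
      (hGa y hy.1).continuousAt.continuousWithinAt) (by
    intro y hy hlt
    have hy2 : ‖z y - z y0‖ ≤ r := hy.2
    have h1 := hbound y hy2
    have hyK : y ∉ K := by
      intro hyK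
      rw [hK y hy.1 hyK hy2, sub_self, norm_zero, zero_div, add_zero] at h1
      nlinarith [sq_nonneg (‖k‖ / 4 - ‖z y - z y0‖ / 2), sq_nonneg ‖z y - z y0‖]
    have hyr : ‖z y - z y0‖ < r := by
      refine lt_of_le_of_ne hy2 fun h => ?_
      have h2 : ‖w y - f (z y)‖ / ‖b‖ ≤ r / 4 := by
        rw [div_le_iff₀ hb0]; linarith [hη y hy.1 hy2]
      rw [h] at h1
      have h3 := mul_le_mul (show ‖k‖ + r ≤ 5 / 4 * r by linarith)
        (show r / 4 + ‖w y - f (z y)‖ / ‖b‖ ≤ r / 2 by linarith) (by positivity) (by positivity)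
      nlinarith [sq_nonneg ‖k‖]
    refine ⟨(hN y hy.1 hyK hyr).mono ?_, G, hGa y hy.1, Eventually.of_forall fun _ _ => rfl⟩
    filter_upwards [ev_of_cont (hzc y hy.1) (gt_mem_nhds hyr)] with x a hx
    exact ⟨hx, le_of_lt (a hx)⟩)
  have h1 := key y0 ⟨hy0, by simp [hr.le]⟩
  have h2 : (G y0).re = ‖k‖ ^ 2 := by
    simp only [hG, hk, sub_self, mul_zero, zero_mul, sub_zero, Complex.norm_conj]
    rw [Complex.sq_norm, Complex.normSq_apply]; simp
  have h3 : ‖k‖ = 0 := by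
    have : ‖k‖ ^ 2 ≤ ‖k‖ ^ 2 / 16 := h2 ▸ h1
    nlinarith [norm_nonneg k]
  rw [hk, Complex.norm_conj, norm_eq_zero, hU] at h3
  simpa [hb, sub_eq_zero] using h3

theorem peak_graph {Z : Set E} {z w : E → ℂ} {y0 : E} (hz : AnalyticAt ℂ z y0)
    (hw : AnalyticAt ℂ w y0) (hinj : ∀ y ∈ Z, z y = z y0 → w y = w y0 → y = y0)
    {f : ℂ → ℂ} {a b : ℂ} (hb : b ≠ 0) {r : ℝ} (hr : 0 < r)
    (hf : ∀ t, ‖t - z y0‖ ≤ r → ‖f t - f (z y0) - (a * (t - z y0) + b * conj (t - z y0))‖ ≤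
      ‖b‖ / 4 * ‖t - z y0‖) (h0 : w y0 = f (z y0))
    (hg : ∀ᶠ y in 𝓝 y0, y ∈ Z → w y = f (z y)) : ¬ NoPeak Z y0 := by
  intro hN
  have hb0 : 0 < ‖b‖ := norm_pos_iff.2 hb
  refine hN (fun y => -((z y - z y0) * ((w y - f (z y0) - a * (z y - z y0)) / b)))
    ((hz.sub analyticAt_const).mul (((hw.sub analyticAt_const).sub
      (analyticAt_const.mul (hz.sub analyticAt_const))).div_const)).neg ?_
  have h1 : ∀ᶠ y in 𝓝 y0, ‖z y - z y0‖ < r :=
    (hz.continuousAt.sub continuousAt_const).norm.eventually (gt_mem_nhds (by simpa using hr))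
  filter_upwards [hg, h1] with y a1 a2 hy hne
  set t : ℂ := z y - z y0 with ht
  have ht0 : 0 < ‖t‖ := norm_pos_iff.2 fun h => hne (hinj y hy (sub_eq_zero.1 h)
    (by rw [a1 hy, h0, sub_eq_zero.1 h]))
  set e : ℂ := (f (z y) - f (z y0) - (a * t + b * conj t)) / b with he
  have h2 : ‖e‖ ≤ ‖t‖ / 4 := by
    rw [he, norm_div, div_le_iff₀ hb0]; linarith [hf (z y) a2.le]
  have h3 : (w y - f (z y0) - a * t) / b = conj t + e := by
    rw [a1 hy, he]; field_simp; ring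
  have h4 : (-(t * (conj t + e))).re = (-t * e).re - ‖t‖ ^ 2 := by
    rw [Complex.sq_norm, Complex.normSq_apply]; simp; ring
  have h5 : (-t * e).re ≤ ‖t‖ * ‖e‖ := by
    refine (Complex.re_le_norm _).trans ?_
    rw [norm_mul, norm_neg]
  rw [h3, h4]
  simp only [sub_self, zero_mul, neg_zero, Complex.zero_re]
  nlinarith

theorem lin_decomp (L : ℂ →L[ℝ] ℂ) (t : ℂ) :
    L t = (L 1 - Complex.I * L Complex.I) / 2 * t + (L 1 + Complex.I * L Complex.I) / 2 * conj t := by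
  have h : t = t.re • (1 : ℂ) + t.im • Complex.I := by
    apply Complex.ext <;> simp
  have h2 : L t = t.re * L 1 + t.im * L Complex.I := by
    conv_lhs => rw [h]
    rw [map_add, map_smul, map_smul]; simp
  rw [h2]
  have h3 : conj t = t.re - t.im * Complex.I := by apply Complex.ext <;> simp
  rw [h3]
  conv_rhs => rw [← Complex.re_add_im t]
  simp only [Complex.add_re, Complex.ofReal_re, Complex.mul_re, Complex.I_re, mul_zero,
    Complex.ofReal_im, Complex.I_im, mul_one, sub_self, add_zero, Complex.add_im, Complex.mul_im,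
    zero_add]
  linear_combination (t.im * L Complex.I) * Complex.I_mul_I

theorem lbt (c : E ≃L[ℂ] (σ → ℂ)) {Z K : Set E} (hZ : IsCompact Z) {z w : E → ℂ}
    (hz : ∀ y ∈ Z, AnalyticAt ℂ z y) (hw : ∀ y ∈ Z, AnalyticAt ℂ w y)
    (hinj : ∀ y ∈ Z, ∀ y' ∈ Z, z y = z y' → w y = w y' → y = y')
    {f : ℂ → ℂ} (L : ℂ →L[ℝ] ℂ) {b z1 : ℂ} (hbL : b = (L 1 + Complex.I * L Complex.I) / 2)
    (hb : b ≠ 0) {r : ℝ} (hr : 0 < r)
    (hf : ∀ t, ‖t - z1‖ ≤ 2 * r → DifferentiableAt ℝ f t ∧ ‖fderiv ℝ f t - L‖ ≤ ‖b‖ / 4)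
    (hη : ∀ y ∈ Z, ‖z y - z1‖ ≤ 2 * r → ‖w y - f (z y)‖ ≤ ‖b‖ / 4 * r)
    (hK : ∀ y ∈ Z, y ∈ K → ‖z y - z1‖ ≤ 2 * r → w y = f (z y))
    (hN : ∀ y ∈ Z, y ∉ K → ‖z y - z1‖ < 2 * r → NoPeak Z y) :
    ∀ y ∈ Z, ‖z y - z1‖ < r → y ∈ K := by
  have tri : ∀ {s t : ℂ}, ‖s - z1‖ < r → ‖t - s‖ ≤ r → ‖t - z1‖ < 2 * r := by
    intro s t h1 h2
    have := norm_add_le (t - s) (s - z1)
    rw [sub_add_sub_cancel] at this; linarith
  have hlip : ∀ s, ‖s - z1‖ < r → ∀ t, ‖t - s‖ ≤ r → ‖f t - f s -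
      ((L 1 - Complex.I * L Complex.I) / 2 * (t - s) + b * conj (t - s))‖ ≤ ‖b‖ / 4 * ‖t - s‖ := by
    intro s hs t ht
    rw [hbL, ← lin_decomp L, ← hbL]
    exact (convex_closedBall z1 (2 * r)).norm_image_sub_le_of_norm_fderiv_le'
      (fun x hx => (hf x (mem_closedBall_iff_norm.1 hx)).1)
      (fun x hx => (hf x (mem_closedBall_iff_norm.1 hx)).2)
      (mem_closedBall_iff_norm.2 (by linarith)) (mem_closedBall_iff_norm.2 (tri hs ht).le)
  have hgr : ∀ y ∈ Z, ‖z y - z1‖ < r → w y = f (z y) := fun y hy h =>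
    lbt_graph c (K := K) hZ hz hw hy hb hr (hlip _ h) (fun x hx h' => hη x hx (tri h h').le)
      (fun x hx hk h' => hK x hx hk (tri h h').le) (fun x hx hk h' => hN x hx hk (tri h h'.le))
  intro y hy h
  by_contra hyK
  refine peak_graph (hz y hy) (hw y hy) (fun x hx => hinj x hx y hy) hb hr (hlip _ h)
    (hgr y hy h) ?_ (hN y hy hyK (by linarith))
  filter_upwards [((hz y hy).continuousAt.sub continuousAt_const).norm.eventually
    (gt_mem_nhds h)] with x a hx using hgr x hx a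

end Pool.Agent.HULL
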