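import Pool.Agent.Lib.HULL.Rossi

open MvPolynomial Filter Topology

namespace Pool.Agent.HULL

variable {E σ : Type*} [Fintype σ]

theorem usc [PseudoMetricSpace E] (c : E ≃ₜ (σ → ℂ)) {Y N : Set E} (hY : IsCompact Y)
    (hN : IsOpen N) (h : Hull c Y ⊆ N) : ∃ η > 0, Hull c (Metric.thickening η Y) ⊆ N := by
  obtain ⟨R, hR⟩ := hY.exists_bound_of_continuousOn c.continuous.continuousOn
  obtain ⟨η0, h0, h1⟩ := hY.exists_thickening_subset_open
    (isOpen_lt c.continuous.norm continuous_const) (fun y hy =>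
      show ‖c y‖ < |R| + 1 by linarith [hR y hy, le_abs_self R])
  have hZ : IsCompact (c ⁻¹' Metric.closedBall (0 : σ → ℂ) (|R| + 1) \ N) :=
    (c.isCompact_preimage.2 (isCompact_closedBall _ _)).diff hN
  have key : ∃ η > 0, ∀ x ∈ c ⁻¹' Metric.closedBall (0 : σ → ℂ) (|R| + 1) \ N,
      x ∉ Hull c (Metric.thickening η Y) := by
    refine hZ.induction_on (p := fun S => ∃ η > 0, ∀ x ∈ S, x ∉ Hull c (Metric.thickening η Y))
      ⟨1, one_pos, fun x hx => hx.elim⟩ ?_ ?_ ?_
    · rintro S T hST ⟨η, a, b⟩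
      exact ⟨η, a, fun x hx => b x (hST hx)⟩
    · rintro S T ⟨η, a, b⟩ ⟨η', a', b'⟩
      refine ⟨min η η', lt_min a a', ?_⟩
      rintro x (hx | hx) hh
      · exact b x hx (hull_sub ((Metric.thickening_mono (min_le_left _ _) Y).trans
          (subset_hull _ _)) hh)
      · exact b' x hx (hull_sub ((Metric.thickening_mono (min_le_right _ _) Y).trans
          (subset_hull _ _)) hh)
    · intro z hz
      obtain ⟨g, m, -, hm, hg1, hg⟩ := normalize (c := c) (K := Y) fun hh => hz.2 (h hh)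
      have hc := (cont_eval c.continuous g).norm
      obtain ⟨η, a, b⟩ := hY.exists_thickening_subset_open
        (isOpen_lt hc continuous_const) (fun y hy =>
          show ‖eval (c y) g‖ < (m + 1) / 2 by linarith [hg y hy])
      refine ⟨{x | (m + 1) / 2 < ‖eval (c x) g‖}, mem_nhdsWithin_of_mem_nhds
        ((isOpen_lt continuous_const hc).mem_nhds ?_), η, a, fun x hx hh => ?_⟩
      · show (m + 1) / 2 < ‖eval (c z) g‖
        rw [hg1, norm_one]; linarith
      · exact absurd (hh g _ fun y hy => le_of_lt (b hy)) (not_le.2 hx)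
  obtain ⟨η, a, b⟩ := key
  refine ⟨min η η0, lt_min a h0, fun x hx => ?_⟩
  by_contra hxN
  refine b x ⟨?_, hxN⟩ (hull_sub ((Metric.thickening_mono (min_le_left _ _) Y).trans
    (subset_hull _ _)) hx)
  rw [Set.mem_preimage, mem_closedBall_zero_iff, pi_norm_le_iff_of_nonneg (by positivity)]
  intro i
  have := hx (X i) (|R| + 1) fun y hy => by
    rw [eval_X]
    exact (norm_le_pi_norm _ i).trans
      (le_of_lt (h1 (Metric.thickening_mono (min_le_right _ _) Y hy)))
  rwa [eval_X] at this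

variable [NormedAddCommGroup E] [NormedSpace ℂ E]

theorem maxp (c : E ≃L[ℂ] (σ → ℂ)) {X Z : Set E} (hZ : IsCompact Z) {ψ : E → ℝ}
    (hψ : ContinuousOn ψ Z) {b : ℝ}
    (H : ∀ y ∈ Z, b < ψ y →
      (∀ G : E → ℂ, AnalyticAt ℂ G y →
        ¬ ∀ᶠ x in 𝓝 y, x ∈ X → x ≠ y → (G x).re < (G y).re) ∧
      ∃ G : E → ℂ, AnalyticAt ℂ G y ∧ (G y).re = ψ y ∧
        ∀ᶠ x in 𝓝 y, x ∈ X → x ∈ Z ∧ (G x).re ≤ ψ x) :
    ∀ y ∈ Z, ψ y ≤ b := by
  by_contra hcon
  push Not at hcon
  obtain ⟨x0, hx0, hb⟩ := hcon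
  let q : E → ℝ := fun x => ∑ i, Complex.normSq (c x i)
  have hq : Continuous q := by
    refine continuous_finsetSum _ fun i _ => Complex.continuous_normSq.comp ?_
    fun_prop
  have hq0 : ∀ x, 0 ≤ q x := fun x => Finset.sum_nonneg fun i _ => Complex.normSq_nonneg _
  obtain ⟨R, hR⟩ := hZ.exists_bound_of_continuousOn hq.continuousOn
  have hR1 : 0 < |R| + 1 := by positivity
  set η : ℝ := (ψ x0 - b) / (|R| + 1) with hη
  have hη0 : 0 < η := div_pos (sub_pos.2 hb) hR1
  obtain ⟨y, hy, hmax⟩ := hZ.exists_isMaxOn ⟨x0, hx0⟩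
    (hψ.add (continuousOn_const.mul hq.continuousOn) : ContinuousOn (fun x => ψ x + η * q x) Z)
  have hyb : b < ψ y := by
    have h1 : ψ x0 + η * q x0 ≤ ψ y + η * q y := hmax hx0
    have h2 : q y < |R| + 1 := by
      linarith [le_abs_self R, hR y hy, Real.le_norm_self (q y)]
    have h3 : η * q y < η * (|R| + 1) := mul_lt_mul_of_pos_left h2 hη0
    have h4 : η * (|R| + 1) = ψ x0 - b := by rw [hη]; field_simp
    nlinarith [mul_nonneg hη0.le (hq0 x0)]
  obtain ⟨hnp, G, hG, hGy, hGle⟩ := H y hy hyb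
  refine hnp (fun x => G x + 2 * η * ∑ i, (c x i - c y i) * (starRingEnd ℂ) (c y i)) ?_ ?_
  · refine hG.add (analyticAt_const.mul (Finset.analyticAt_fun_sum _ fun i _ => ?_))
    refine AnalyticAt.mul (AnalyticAt.sub ?_ analyticAt_const) analyticAt_const
    exact ((ContinuousLinearMap.proj i).comp (c : E →L[ℂ] (σ → ℂ))).analyticAt y
  · filter_upwards [hGle] with x hx hxX hxy
    obtain ⟨hxZ, hle⟩ := hx hxX
    have h1 : ψ x + η * q x ≤ ψ y + η * q y := hmax hxZ
    have h2 : q x = q y + 2 * (∑ i, (c x i - c y i) * (starRingEnd ℂ) (c y i)).re +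
        ∑ i, Complex.normSq (c x i - c y i) := by
      simp only [q, Complex.re_sum, Finset.mul_sum, ← Finset.sum_add_distrib]
      refine Finset.sum_congr rfl fun i _ => ?_
      simp [Complex.normSq_apply]; ring
    have h3 : 0 < ∑ i, Complex.normSq (c x i - c y i) := by
      obtain ⟨i, hi⟩ : ∃ i, c x i ≠ c y i := by
        by_contra hh
        push Not at hh
        exact hxy (c.injective (funext hh))
      exact Finset.sum_pos' (fun j _ => Complex.normSq_nonneg _)
        ⟨i, Finset.mem_univ i, Complex.normSq_pos.2 (sub_ne_zero.2 hi)⟩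
    have h4 : (2 * (η : ℂ) * ∑ i, (c x i - c y i) * (starRingEnd ℂ) (c y i)).re =
        2 * η * (∑ i, (c x i - c y i) * (starRingEnd ℂ) (c y i)).re := by
      simp [Complex.mul_re]
    rw [Complex.add_re, Complex.add_re, h4]
    simp only [sub_self, zero_mul, Finset.sum_const_zero, mul_zero, Complex.zero_re, add_zero]
    nlinarith [mul_pos hη0 h3]

end Pool.Agent.HULL
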