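import Pool.Agent.Lib.HULL.Barrier

open Filter Topology

namespace Pool.Agent.HULL.Z59

variable {E σ : Type*} [Fintype σ] [NormedAddCommGroup E] [NormedSpace ℂ E]

theorem qb (c : E ≃L[ℂ] (σ → ℂ)) {Z K : Set E} (hZ : IsCompact Z) {ξ η : E → ℂ}
    (hξ : ∀ y ∈ Z, AnalyticAt ℂ ξ y) (hη : ∀ y ∈ Z, AnalyticAt ℂ η y) {b : ℝ} (hb : -1 / 2 ≤ b)
    (h1 : ∀ y ∈ Z, ‖ξ y‖ ≤ 1 → ‖η y‖ ≤ 1 → |(ξ y).im| ≤ 1 / 4 ∧ |(η y).im| ≤ 1 / 4)
    (h2 : ∀ y ∈ Z, ‖ξ y‖ ≤ 1 → ‖η y‖ ≤ 1 → y ∈ K →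
      (ξ y).im ^ 2 + (η y).im ^ 2 - (ξ y).re ^ 2 - (η y).re ^ 2 ≤ b)
    (h3 : ∀ y ∈ Z, ‖ξ y‖ ≤ 1 → ‖η y‖ ≤ 1 → y ∉ K → NoPeak Z y) :
    ∀ y ∈ Z, ‖ξ y‖ ≤ 1 → ‖η y‖ ≤ 1 →
      (ξ y).im ^ 2 + (η y).im ^ 2 - (ξ y).re ^ 2 - (η y).re ^ 2 ≤ b := by
  have hcon : ContinuousOn (fun y => max ‖ξ y‖ ‖η y‖) Z := fun y hy =>
    ContinuousAt.continuousWithinAt
      ((hξ y hy).continuousAt.norm.max (hη y hy).continuousAt.norm)
  have hc : IsCompact (Z ∩ (fun y => max ‖ξ y‖ ‖η y‖) ⁻¹' Set.Iic 1) := hZ.of_isClosed_subset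
    (hcon.preimage_isClosed_of_isClosed hZ.isClosed isClosed_Iic) Set.inter_subset_left
  have hG : ∀ y ∈ Z, AnalyticAt ℂ (fun y => -(ξ y ^ 2 + η y ^ 2)) y := fun y hy =>
    (((hξ y hy).pow 2).add ((hη y hy).pow 2)).neg
  have hre : ∀ y, (-(ξ y ^ 2 + η y ^ 2)).re =
      (ξ y).im ^ 2 + (η y).im ^ 2 - (ξ y).re ^ 2 - (η y).re ^ 2 := by
    intro y; simp [sq]; ring
  have key := maxre c hc (ψ := fun y => (-(ξ y ^ 2 + η y ^ 2)).re) (b := b)
    (Complex.continuous_re.comp_continuousOn fun y hy =>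
      (hG y hy.1).continuousAt.continuousWithinAt) (by
    intro y hy hlt
    obtain ⟨a1, a2⟩ := max_le_iff.1 (show max ‖ξ y‖ ‖η y‖ ≤ 1 from hy.2)
    rw [hre] at hlt
    have hyK : y ∉ K := fun h => absurd (h2 y hy.1 a1 a2 h) (not_le.2 hlt)
    obtain ⟨b1, b2⟩ := h1 y hy.1 a1 a2
    have b3 : (ξ y).im ^ 2 ≤ 1 / 16 := by rw [← sq_abs]; nlinarith [abs_nonneg (ξ y).im]
    have b4 : (η y).im ^ 2 ≤ 1 / 16 := by rw [← sq_abs]; nlinarith [abs_nonneg (η y).im]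
    have e1 : ‖ξ y‖ ^ 2 = (ξ y).re ^ 2 + (ξ y).im ^ 2 := by
      rw [Complex.sq_norm, Complex.normSq_apply]; ring
    have e2 : ‖η y‖ ^ 2 = (η y).re ^ 2 + (η y).im ^ 2 := by
      rw [Complex.sq_norm, Complex.normSq_apply]; ring
    have hlt1 : max ‖ξ y‖ ‖η y‖ < 1 := by
      refine max_lt (lt_of_le_of_ne a1 fun h => ?_) (lt_of_le_of_ne a2 fun h => ?_)
      · rw [h] at e1; nlinarith [sq_nonneg (η y).re]
      · rw [h] at e2; nlinarith [sq_nonneg (ξ y).re]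
    refine ⟨(h3 y hy.1 a1 a2 hyK).mono ?_, _, hG y hy.1, Eventually.of_forall fun _ _ => rfl⟩
    filter_upwards [ev_of_cont (hcon y hy.1) (gt_mem_nhds hlt1)] with x a hx
    exact ⟨hx, le_of_lt (a hx)⟩)
  intro y hy a1 a2
  rw [← hre]
  exact key y ⟨hy, max_le a1 a2⟩

noncomputable def sm (e : ℝ) (v : ℂ) : ℝ := min ‖v‖ ‖v - e‖

theorem sm_nonneg (e : ℝ) (v : ℂ) : 0 ≤ sm e v := le_min (norm_nonneg _) (norm_nonneg _)

theorem sm_le (e : ℝ) (v w : ℂ) : sm e v ≤ sm e w + ‖v - w‖ := by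
  unfold sm
  have h1 := norm_sub_norm_le v w
  have h2 := norm_sub_norm_le (v - e) (w - e)
  rw [sub_sub_sub_cancel_right] at h2
  rcases min_choice ‖w‖ ‖w - e‖ with h | h <;> rw [h]
  · linarith [min_le_left ‖v‖ ‖v - e‖]
  · linarith [min_le_right ‖v‖ ‖v - e‖]

theorem pp_lower {e κ : ℝ} {v w : ℂ} (hκ : κ ≤ 1) (h : ‖v - w‖ ≤ κ * sm e w) :
    (1 - κ) ^ 2 * ‖w * (w - e)‖ ≤ ‖v * (v - e)‖ := by
  rcases (sm_nonneg e w).eq_or_lt with h0 | h0
  · rw [← h0, mul_zero, norm_le_zero_iff, sub_eq_zero] at h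
    have : ‖w * (w - e)‖ = 0 := by
      rw [norm_mul]
      rcases min_choice ‖w‖ ‖w - e‖ with h' | h'
      · rw [← h', show min ‖w‖ ‖w - e‖ = 0 from h0.symm, zero_mul]
      · rw [← h', show min ‖w‖ ‖w - e‖ = 0 from h0.symm, mul_zero]
    rw [this, mul_zero]; exact norm_nonneg _
  have hκ0 : 0 ≤ κ := by
    by_contra hh
    nlinarith [norm_nonneg (v - w)]
  have h1 := norm_sub_norm_le w v
  have h2 := norm_sub_norm_le (w - e) (v - e)
  rw [sub_sub_sub_cancel_right] at h2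
  rw [norm_sub_rev w v] at h1 h2
  have h3 : κ * sm e w ≤ κ * ‖w‖ := mul_le_mul_of_nonneg_left (min_le_left _ _) hκ0
  have h4 : κ * sm e w ≤ κ * ‖w - e‖ := mul_le_mul_of_nonneg_left (min_le_right _ _) hκ0
  rw [norm_mul, norm_mul]
  calc _ = ((1 - κ) * ‖w‖) * ((1 - κ) * ‖w - e‖) := by ring
    _ ≤ _ := mul_le_mul (by linarith) (by linarith)
      (mul_nonneg (by linarith) (norm_nonneg _)) (norm_nonneg _)

theorem thin_alg {e θ : ℝ} (he : 0 ≤ e) (hθ0 : 0 ≤ θ) (hθ : θ ≤ 1 / 2) {v : ℂ}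
    (h : |(v * (v - e)).im| ≤ θ ^ 2 * ‖v * (v - e)‖) :
    |v.im| ≤ θ * sm e v ∨ |v.re - e / 2| ≤ θ * sm e v := by
  have e1 : |(v * (v - e)).im| = 2 * (|v.im| * |v.re - e / 2|) := by
    rw [← abs_mul, ← abs_two, ← abs_mul]; congr 1; simp; ring
  set s := sm e v with hs
  set S := max ‖v‖ ‖v - e‖ with hS
  have e2 : ‖v * (v - e)‖ = s * S := by rw [norm_mul, hs, hS, sm, min_mul_max]
  have hs0 : 0 ≤ s := sm_nonneg e v
  have hsS : s ≤ S := min_le_max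
  have e3 : s + S = ‖v‖ + ‖v - e‖ := min_add_max _ _
  have e4 : e ≤ s + S := by
    have := norm_sub_le v (v - e)
    rw [sub_sub_cancel, Complex.norm_real, Real.norm_eq_abs, abs_of_nonneg he] at this
    linarith
  have e5 : S ^ 2 - s ^ 2 ≤ 2 * e * |v.re - e / 2| := by
    have a1 : ‖v‖ ^ 2 - ‖v - e‖ ^ 2 = 2 * e * (v.re - e / 2) := by
      rw [Complex.sq_norm, Complex.sq_norm, Complex.normSq_apply, Complex.normSq_apply]
      simp; ring
    have a2 := le_abs_self (v.re - e / 2)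
    have a3 := neg_le_abs (v.re - e / 2)
    rcases le_total ‖v‖ ‖v - e‖ with hh | hh
    · rw [hS, hs, sm, max_eq_right hh, min_eq_left hh]; nlinarith
    · rw [hS, hs, sm, max_eq_left hh, min_eq_right hh]; nlinarith
  rw [e1, e2] at h
  by_contra hcon
  push Not at hcon
  obtain ⟨c1, c2⟩ := hcon
  set a := |v.im|
  set r := |v.re - e / 2|
  have hr0 : 0 < r := lt_of_le_of_lt (mul_nonneg hθ0 hs0) c2
  have ha0 : 0 < a := lt_of_le_of_lt (mul_nonneg hθ0 hs0) c1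
  by_cases hh : S ≤ 4 * r
  · have b1 : θ ^ 2 * (s * S) ≤ θ ^ 2 * (s * (4 * r)) := by gcongr
    have b2 : θ * s * r < a * r := mul_lt_mul_of_pos_right c1 hr0
    have b3 : θ * (θ * s * r) ≤ 1 / 2 * (θ * s * r) :=
      mul_le_mul_of_nonneg_right hθ (by positivity)
    nlinarith
  · push Not at hh
    have hS0 : 0 < s + S := by linarith
    have b0 : S - s ≤ 2 * r := by
      have : (S - s) * (s + S) ≤ 2 * r * (s + S) := by nlinarith
      exact le_of_mul_le_mul_right this hS0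
    have b1 : θ ^ 2 * (s * S) ≤ θ ^ 2 * (s * (2 * s)) := by gcongr; linarith
    have b2 : θ * s * (θ * s) < a * r := mul_lt_mul'' c1 c2 (by positivity) (by positivity)
    nlinarith

theorem zp_one (c : E ≃L[ℂ] (σ → ℂ)) {Z : Set E} (hZ : IsCompact Z) {ζ v : E → ℂ}
    (hζ : ∀ y ∈ Z, AnalyticAt ℂ ζ y) (hv : ∀ y ∈ Z, AnalyticAt ℂ v y) {e τ θ ρ : ℝ} {y1 : E}
    (hy1 : y1 ∈ Z) (hρ : 0 < ρ) (hτ : 0 < τ) (hτ1 : τ ≤ 1) (hθ : θ ≤ τ / 16)
    (hs : 0 < sm e (v y1))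
    (H : ∀ y ∈ Z, ‖ζ y - (ζ y1).re‖ ≤ ρ → ‖v y - v y1‖ ≤ τ * sm e (v y1) →
      |(ζ y).im| ≤ ρ / 4 ∧ (|(v y).im| ≤ θ * sm e (v y) ∨
        (|(v y).re - e / 2| ≤ θ * sm e (v y) ∧ NoPeak Z y)))
    (h0 : |(ζ y1).im| ≤ ρ) : |(v y1).im| ≤ τ * sm e (v y1) := by
  by_contra hcon
  push Not at hcon
  set s := sm e (v y1) with hsd
  have n1 : ‖ζ y1 - (ζ y1).re‖ = |(ζ y1).im| := by
    rw [← Complex.abs_im_eq_norm.2 (by simp)]; simp
  have hτs : 0 < τ * s := mul_pos hτ hs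
  have hθs : θ * s ≤ τ * s / 16 := by nlinarith
  obtain ⟨-, h1⟩ := H y1 hy1 (by rw [n1]; exact h0) (by simp [hτs.le])
  have h2 : |(v y1).re - e / 2| ≤ θ * s := (h1.resolve_left (by linarith)).1
  set δ : ℝ := τ * s / 2 with hδ
  have hδ0 : 0 < δ := by positivity
  set w0 : ℂ := ((e / 2 : ℝ) : ℂ) + (v y1).im * Complex.I with hw0
  have n2 : ‖w0 - v y1‖ = |(v y1).re - e / 2| := by
    rw [← Complex.abs_re_eq_norm.2 (by simp [hw0]), abs_sub_comm]; simp [hw0]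
  have key : ∀ y ∈ Z, ‖(ζ y - (ζ y1).re) / (ρ : ℂ)‖ ≤ 1 → ‖Complex.I * (v y - w0) / (δ : ℂ)‖ ≤ 1 →
      (|((ζ y - (ζ y1).re) / (ρ : ℂ)).im| ≤ 1 / 4 ∧
      |(Complex.I * (v y - w0) / (δ : ℂ)).im| ≤ 1 / 4) ∧ NoPeak Z y := by
    intro y hy a1 a2
    rw [norm_div, Complex.norm_real, Real.norm_eq_abs, abs_of_pos hρ, div_le_one hρ] at a1
    rw [norm_div, Complex.norm_real, Real.norm_eq_abs, abs_of_pos hδ0, div_le_one hδ0, norm_mul,
      Complex.norm_I, one_mul] at a2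
    have a3 : ‖v y - v y1‖ ≤ τ * s := by
      have := norm_add_le (v y - w0) (w0 - v y1)
      rw [sub_add_sub_cancel] at this; linarith
    obtain ⟨b1, b2⟩ := H y hy a1 a3
    have a4 : sm e (v y) ≤ 2 * s := by nlinarith [sm_le e (v y) (v y1)]
    have a5 : θ * sm e (v y) ≤ τ * s / 8 := by
      rcases le_total θ 0 with h | h
      · nlinarith [sm_nonneg e (v y)]
      · nlinarith
    have a6 : |(v y).im - (v y1).im| ≤ δ := by
      have := Complex.abs_im_le_norm (v y - w0)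
      simp only [hw0, Complex.sub_im, Complex.add_im, Complex.ofReal_im, Complex.mul_im,
        Complex.ofReal_re, Complex.I_im, Complex.I_re, mul_one, mul_zero, add_zero,
        zero_add] at this
      linarith
    have a7 : ¬ |(v y).im| ≤ θ * sm e (v y) := by
      have := abs_sub_abs_le_abs_sub (v y1).im (v y).im
      rw [abs_sub_comm] at this
      linarith
    obtain ⟨b3, b4⟩ := b2.resolve_left a7
    refine ⟨⟨?_, ?_⟩, b4⟩
    · rw [Complex.div_ofReal_im, abs_div, abs_of_pos hρ, div_le_iff₀ hρ]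
      simp only [Complex.sub_im, Complex.ofReal_im, sub_zero]; linarith
    · rw [Complex.div_ofReal_im, abs_div, abs_of_pos hδ0, div_le_iff₀ hδ0]
      have : (Complex.I * (v y - w0)).im = (v y).re - e / 2 := by simp [hw0]
      rw [this]; linarith
  have := qb c (K := ∅) hZ (ξ := fun y => (ζ y - (ζ y1).re) / (ρ : ℂ))
    (η := fun y => Complex.I * (v y - w0) / (δ : ℂ))
    (fun y hy => ((hζ y hy).sub analyticAt_const).div_const)
    (fun y hy => (analyticAt_const.mul ((hv y hy).sub analyticAt_const)).div_const) le_rfl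
    (fun y hy a b => (key y hy a b).1) (fun y _ _ _ h => h.elim)
    (fun y hy a b _ => (key y hy a b).2) y1 hy1
    (by rw [norm_div, Complex.norm_real, Real.norm_eq_abs, abs_of_pos hρ, div_le_one hρ, n1]
        exact h0)
    (by rw [norm_div, Complex.norm_real, Real.norm_eq_abs, abs_of_pos hδ0, div_le_one hδ0,
          norm_mul, Complex.norm_I, one_mul, norm_sub_rev, n2]; linarith)
  have r1 : ((ζ y1 - (ζ y1).re) / (ρ : ℂ)).re = 0 := by rw [Complex.div_ofReal_re]; simp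
  have r2 : (Complex.I * (v y1 - w0) / (δ : ℂ)).re = 0 := by
    rw [Complex.div_ofReal_re]; simp [hw0]
  simp only [r1, r2] at this
  nlinarith [sq_nonneg ((ζ y1 - (ζ y1).re) / (ρ : ℂ)).im,
    sq_nonneg (Complex.I * (v y1 - w0) / (δ : ℂ)).im]

end Pool.Agent.HULL.Z59
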