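import Pool.Agent.Lib.HULL.Wermer

open MvPolynomial Filter Topology

namespace Pool.Agent.HULL

variable {E σ : Type*}

theorem subset_hull (c : E → σ → ℂ) (K : Set E) : K ⊆ Hull c K :=
  fun x hx _ _ h => h x hx

theorem hull_sub {c : E → σ → ℂ} {K Y : Set E} (h : K ⊆ Hull c Y) : Hull c K ⊆ Hull c Y :=
  fun _ hx p M hM => hx p M fun _ hy => h hy p M hM

theorem isClosed_hull [TopologicalSpace E] {c : E → σ → ℂ} (hc : Continuous c) (K : Set E) :
    IsClosed (Hull c K) := by
  have : Hull c K = ⋂ (p : MvPolynomial σ ℂ) (M : ℝ) (_ : ∀ y ∈ K, ‖eval (c y) p‖ ≤ M),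
      {x | ‖eval (c x) p‖ ≤ M} := by
    ext x; simp [Hull]
  rw [this]
  exact isClosed_iInter fun p => isClosed_iInter fun M => isClosed_iInter fun _ =>
    isClosed_le (cont_eval hc p).norm continuous_const

variable [Fintype σ]

theorem isCompact_hull [TopologicalSpace E] (c : E ≃ₜ (σ → ℂ)) {K : Set E} (hK : IsCompact K) :
    IsCompact (Hull c K) := by
  obtain ⟨R, hR⟩ := hK.exists_bound_of_continuousOn c.continuous.continuousOn
  refine (c.isCompact_preimage.2 (isCompact_closedBall (0 : σ → ℂ) |R|)).of_isClosed_subset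
    (isClosed_hull c.continuous K) fun x hx => ?_
  rw [Set.mem_preimage, mem_closedBall_zero_iff, pi_norm_le_iff_of_nonneg (abs_nonneg R)]
  intro i
  have := hx (X i) |R| fun y hy => by
    rw [eval_X]; exact (norm_le_pi_norm _ i).trans ((hR y hy).trans (le_abs_self R))
  rwa [eval_X] at this

theorem localize [TopologicalSpace E] (c : E ≃ₜ (σ → ℂ)) {Y : Set E} (hY : IsCompact Y) {y : E}
    (hy : y ∈ Hull c Y) {ρ r : ℝ} (hρ : 0 < ρ) (hr : ρ < r) (S : Finset σ) :
    ∃ K : Set E, IsCompact K ∧ K ⊆ Hull c Y ∧ y ∈ Hull c K ∧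
      (∀ x ∈ K, ∀ i ∈ S, ‖c x i - c y i‖ ≤ r) ∧ ∀ x ∈ K, x ∈ Y ∨ ∃ i, ‖c x i - c y i‖ = ρ := by
  classical
  induction S using Finset.induction_on with
  | empty => exact ⟨Y, hY, subset_hull _ _, hy, by simp, fun x hx => Or.inl hx⟩
  | insert i S _ ih =>
    obtain ⟨K, hK, h1, h2, h3, h4⟩ := ih
    have hw := wermer c.continuous c.surjective hK (X i) h2 hρ hr
    simp only [eval_X] at hw
    have hci : Continuous fun x => ‖c x i - c y i‖ := by fun_prop
    refine ⟨_, ?_, ?_, hw, ?_, ?_⟩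
    · exact ((isCompact_hull c hK).inter_right (isClosed_eq hci continuous_const)).union
        (hK.inter_right (isClosed_le hci continuous_const))
    · rintro x (hx | hx)
      · exact hull_sub h1 hx.1
      · exact h1 hx.1
    · rintro x (hx | hx) j hj
      · rcases Finset.mem_insert.1 hj with rfl | hj
        · exact (le_of_eq hx.2).trans hr.le
        · have := hx.1 (X j - C (c y j)) r fun t ht => by simpa using h3 t ht j hj
          simpa using this
      · rcases Finset.mem_insert.1 hj with rfl | hj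
        · exact hx.2
        · exact h3 x hx.1 j hj
    · rintro x (hx | hx)
      · exact Or.inr ⟨i, hx.2⟩
      · exact h4 x hx.1

variable [NormedAddCommGroup E] [NormedSpace ℂ E]

theorem poly_multi (c : E ≃L[ℂ] (σ → ℂ)) (y : E) {n : ℕ}
    (p : ContinuousMultilinearMap ℂ (fun _ : Fin n => E) ℂ) :
    ∃ P : MvPolynomial σ ℂ, ∀ x, eval (c x) P = p fun _ => x - y := by
  classical
  refine ⟨∑ r : Fin n → σ, (∏ k, (X (r k) - C (c y (r k)))) *
    C (p fun k => c.symm (Pi.single (r k) 1)), fun x => ?_⟩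
  have e : x - y = ∑ i, (c x i - c y i) • c.symm (Pi.single i 1) := by
    apply c.injective
    rw [map_sum, map_sub]
    ext j
    simp [Finset.sum_apply, Pi.single_apply]
  rw [e, p.map_sum (fun (_ : Fin n) (i : σ) => (c x i - c y i) • c.symm (Pi.single i 1)), map_sum]
  refine Finset.sum_congr rfl fun r _ => ?_
  rw [p.map_smul_univ, map_mul, map_prod, eval_C, smul_eq_mul]
  simp

theorem poly_approx (c : E ≃L[ℂ] (σ → ℂ)) {f : E → ℂ} {y : E} (hf : AnalyticAt ℂ f y) :
    ∃ R > 0, ContinuousOn f (Metric.ball y R) ∧ ∀ ε > 0, ∃ P : MvPolynomial σ ℂ,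
      ∀ x ∈ Metric.ball y R, ‖eval (c x) P - f x‖ < ε := by
  obtain ⟨p, R, hp⟩ := hf
  obtain ⟨R', h0, h1⟩ := ENNReal.lt_iff_exists_nnreal_btwn.1 hp.r_pos
  have h0' : (0 : ℝ) < R' := by exact_mod_cast h0
  refine ⟨R', h0', hp.continuousOn.mono ?_, fun ε hε => ?_⟩
  · intro x hx
    rw [← Metric.eball_coe] at hx
    exact Metric.eball_subset_eball h1.le hx
  · obtain ⟨n, hn⟩ := (Metric.tendstoUniformlyOn_iff.1 (hp.tendstoUniformlyOn' h1) ε hε).exists
    choose P hP using fun k => poly_multi c y (p k)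
    refine ⟨∑ k ∈ Finset.range n, P k, fun x hx => ?_⟩
    have := hn x hx
    rw [dist_comm, dist_eq_norm] at this
    rw [map_sum, Finset.sum_congr rfl fun k _ => hP k x]
    exact this

theorem rossi (c : E ≃L[ℂ] (σ → ℂ)) {Y : Set E} (hY : IsCompact Y) {y : E} (hy : y ∈ Hull c Y)
    (hyY : y ∉ Y) {G : E → ℂ} (hG : AnalyticAt ℂ G y) :
    ¬ ∀ᶠ x in 𝓝 y, x ∈ Hull c Y → x ≠ y → (G x).re < (G y).re := by
  intro hpk
  obtain ⟨R, hR, hcont, happ⟩ := poly_approx c hG.cexp
  have h2 := hpk.and (Metric.ball_mem_nhds y hR)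
  have h3 : Tendsto c.symm (𝓝 (c y)) (𝓝 y) := by
    have := c.symm.continuous.tendsto (c y)
    rwa [c.symm_apply_apply] at this
  obtain ⟨r, hr, hball⟩ := Metric.nhds_basis_closedBall.eventually_iff.1 (h3.eventually h2)
  obtain ⟨K, hK, k1, k2, k3, k4⟩ := localize c.toHomeomorph hY hy (half_pos hr) (half_lt_self hr)
    Finset.univ
  have hKx : ∀ x ∈ K, (G x).re < (G y).re ∧ x ∈ Metric.ball y R := by
    intro x hx
    have := hball (show c x ∈ Metric.closedBall (c y) r by
      rw [Metric.mem_closedBall, dist_eq_norm, pi_norm_le_iff_of_nonneg hr.le]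
      exact fun i => k3 x hx i (Finset.mem_univ i))
    rw [c.symm_apply_apply] at this
    refine ⟨this.1 (k1 hx) ?_, this.2⟩
    rintro rfl
    rcases k4 x hx with h | ⟨i, h⟩
    · exact hyY h
    · simp at h; linarith
  rcases K.eq_empty_or_nonempty with rfl | hne
  · have := k2 0 (-1) fun t ht => ht.elim
    simp at this; linarith
  obtain ⟨x0, hx0, hmax⟩ := hK.exists_isMaxOn hne
    (hcont.mono fun x hx => (hKx x hx).2).norm
  have hlt : ‖Complex.exp (G x0)‖ < ‖Complex.exp (G y)‖ := by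
    rw [Complex.norm_exp, Complex.norm_exp]; exact Real.exp_lt_exp.2 (hKx x0 hx0).1
  obtain ⟨P, hP⟩ := happ _ (half_pos (sub_pos.2 hlt))
  have h4 := k2 P (‖Complex.exp (G x0)‖ + (‖Complex.exp (G y)‖ - ‖Complex.exp (G x0)‖) / 2)
    fun t ht => by
      have a1 : ‖eval (c t) P - Complex.exp (G t)‖ < _ := hP t (hKx t ht).2
      have a2 : ‖Complex.exp (G t)‖ ≤ ‖Complex.exp (G x0)‖ := hmax ht
      have a3 := norm_sub_norm_le (eval (c t) P) (Complex.exp (G t))
      show ‖eval (c t) P‖ ≤ _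
      linarith
  have a1 : ‖eval (c y) P - Complex.exp (G y)‖ < _ := hP y (Metric.mem_ball_self hR)
  have a3 := norm_sub_norm_le (Complex.exp (G y)) (eval (c y) P)
  rw [norm_sub_rev] at a3
  have h5 : ‖eval (c y) P‖ ≤ _ := h4
  linarith

end Pool.Agent.HULL
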