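import Pool.Agent.Lib.HULL.Barrier

open Filter Topology

namespace Pool.Agent.HULL

namespace Thin

theorem cos_le_of_mem {φ x : ℝ} (h0 : 0 ≤ φ) (h1 : φ ≤ x) (h2 : x ≤ 2 * Real.pi - φ) :
    Real.cos x ≤ Real.cos φ := by
  by_cases h : x ≤ Real.pi
  · exact Real.cos_le_cos_of_nonneg_of_le_pi h0 h h1
  · rw [← Real.cos_two_pi_sub x]
    exact Real.cos_le_cos_of_nonneg_of_le_pi h0 (by linarith) (by linarith)

theorem cos_lt_of_abs {φ x : ℝ} (h1 : |x| < φ) (h2 : φ ≤ Real.pi) :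
    Real.cos φ < Real.cos x := by
  rw [← Real.cos_abs x]
  exact Real.cos_lt_cos_of_nonneg_of_le_pi (abs_nonneg _) h2 h1

theorem abs_arg_le_iff (w : ℂ) {φ : ℝ} (h0 : 0 ≤ φ) (h1 : φ ≤ Real.pi) :
    |w.arg| ≤ φ ↔ Real.cos φ ≤ Real.cos w.arg := by
  rw [← Real.cos_abs w.arg]
  exact (Real.strictAntiOn_cos.le_iff_ge ⟨h0, h1⟩ ⟨abs_nonneg _, Complex.abs_arg_le_pi _⟩).symm

theorem le_abs_arg_iff (w : ℂ) {φ : ℝ} (h0 : 0 ≤ φ) (h1 : φ ≤ Real.pi) :
    φ ≤ |w.arg| ↔ Real.cos w.arg ≤ Real.cos φ := by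
  rw [← Real.cos_abs w.arg]
  exact (Real.strictAntiOn_cos.le_iff_ge ⟨abs_nonneg _, Complex.abs_arg_le_pi _⟩ ⟨h0, h1⟩).symm

/-- rotation by `-θ` -/
noncomputable def rot (θ : ℝ) (w : ℂ) : ℂ := w * Complex.exp (-(Complex.I * θ))

theorem norm_rot (θ : ℝ) (w : ℂ) : ‖rot θ w‖ = ‖w‖ := by
  rw [rot, norm_mul, Complex.norm_exp]; simp

theorem rot_zero (w : ℂ) : rot 0 w = w := by simp [rot]

theorem cos_rot {w : ℂ} (hw : w ≠ 0) (θ θ' : ℝ) :
    Real.cos (rot θ w).arg = Real.cos ((rot θ' w).arg + θ' - θ) := by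
  have h0 : ‖w‖ ≠ 0 := norm_ne_zero_iff.2 hw
  have h1 : rot θ w ≠ 0 := by rw [← norm_ne_zero_iff, norm_rot]; exact h0
  have h2 : rot θ w = (‖w‖ : ℂ) * Complex.exp ((((rot θ' w).arg + θ' - θ : ℝ) : ℂ) * Complex.I) := by
    have h3 := Complex.norm_mul_exp_arg_mul_I (rot θ' w)
    rw [norm_rot] at h3
    have h4 : rot θ w = rot θ' w * Complex.exp (((θ' - θ : ℝ) : ℂ) * Complex.I) := by
      rw [rot, rot, mul_assoc, ← Complex.exp_add]; congr 2; push_cast; ring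
    rw [h4]
    nth_rewrite 1 [← h3]
    rw [mul_assoc, ← Complex.exp_add]; congr 2; push_cast; ring
  rw [Complex.cos_arg h1, norm_rot]
  nth_rewrite 1 [h2]
  rw [Complex.re_ofReal_mul, Complex.exp_ofReal_mul_I_re]
  field_simp

theorem sq_iff (q : ℂ) (hq : q ≠ 0) {ε : ℝ} (h0 : 0 ≤ ε) (h1 : ε ≤ Real.pi / 2) :
    |(q ^ 2).arg| ≤ 2 * ε ↔ |q.im| ≤ Real.sin ε * ‖q‖ := by
  have hn : 0 < ‖q‖ := norm_pos_iff.2 hq
  have hs : 0 ≤ Real.sin ε := Real.sin_nonneg_of_nonneg_of_le_pi h0 (by linarith [Real.pi_pos])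
  rw [abs_arg_le_iff _ (by linarith) (by linarith), Complex.cos_arg (pow_ne_zero 2 hq), norm_pow,
    le_div_iff₀ (by positivity), Real.cos_two_mul, Real.cos_sq',
    ← sq_le_sq₀ (abs_nonneg q.im) (mul_nonneg hs hn.le), sq_abs]
  have e1 : (q ^ 2).re = ‖q‖ ^ 2 - 2 * q.im ^ 2 := by
    rw [Complex.sq_norm, Complex.normSq_apply, sq, Complex.mul_re]; ring
  rw [e1]
  constructor <;> intro h <;> nlinarith

theorem rot_sq (θ O : ℝ) (w : ℂ) : rot (2 * θ) ((w / O) ^ 2) = (rot θ w / O) ^ 2 := by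
  rw [rot, rot, div_pow, div_pow, mul_pow, ← Complex.exp_nat_mul]
  push_cast
  rw [show -(Complex.I * (2 * (θ : ℂ))) = 2 * -(Complex.I * θ) by ring]; ring

theorem cl_iff (θ : ℝ) {O : ℝ} (hO : 0 < O) {w : ℂ} (hw : w ≠ 0) {ε : ℝ} (h0 : 0 ≤ ε)
    (h1 : ε ≤ Real.pi / 2) :
    |(rot (2 * θ) ((w / O) ^ 2)).arg| ≤ 2 * ε ↔ |(rot θ w).im| ≤ Real.sin ε * ‖w‖ := by
  have h2 : rot θ w ≠ 0 := by rw [← norm_ne_zero_iff, norm_rot]; exact norm_ne_zero_iff.2 hw
  rw [rot_sq, sq_iff _ (div_ne_zero h2 (by exact_mod_cast hO.ne')) h0 h1, Complex.div_ofReal_im,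
    norm_div, norm_rot, Complex.norm_real, Real.norm_eq_abs, abs_div, abs_of_pos hO,
    ← mul_div_assoc, div_le_div_iff_of_pos_right hO]

theorem norm_sq_div {O : ℝ} (hO : 0 < O) (w : ℂ) : ‖(w / O) ^ 2‖ = (‖w‖ / O) ^ 2 := by
  rw [norm_pow, norm_div, Complex.norm_real, Real.norm_eq_abs, abs_of_pos hO]

theorem one_lt_iff {O : ℝ} (hO : 0 < O) (w : ℂ) : 1 < ‖(w / O) ^ 2‖ ↔ O < ‖w‖ := by
  rw [norm_sq_div hO, one_lt_sq_iff₀ (by positivity), one_lt_div hO]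

theorem exp_le_of {O a : ℝ} (hO : 0 < O) {w : ℂ} (h : O * Real.exp a ≤ ‖w‖) :
    Real.exp (2 * a) ≤ ‖(w / O) ^ 2‖ := by
  rw [norm_sq_div hO, two_mul, Real.exp_add, ← sq]
  refine pow_le_pow_left₀ (Real.exp_pos a).le ?_ 2
  rw [le_div_iff₀ hO]; linarith

theorem small {t h a : ℝ} (ht : 0 < t) (hh : 0 < h) (ha : 0 < a) :
    ∃ ε > 0, ε ≤ 1 / 10 ∧ ε ≤ t / 2 ∧ 2 * h * Real.exp (-(2 * a) / (2 * ε)) ≤ t / 2 := by
  refine ⟨min (1 / 10) (min (t / 2) (a * t / (4 * h))), by positivity, min_le_left _ _,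
    (min_le_right _ _).trans (min_le_left _ _), ?_⟩
  set ε := min (1 / 10) (min (t / 2) (a * t / (4 * h))) with hε
  have h0 : 0 < ε := by positivity
  have h1 : ε ≤ a * t / (4 * h) := (min_le_right _ _).trans (min_le_right _ _)
  have h2 : a / ε ≤ Real.exp (a / ε) := by linarith [Real.add_one_le_exp (a / ε)]
  have h3 : -(2 * a) / (2 * ε) = -(a / ε) := by field_simp
  rw [h3, Real.exp_neg, ← div_eq_mul_inv, div_le_iff₀ (Real.exp_pos _)]
  rw [le_div_iff₀ (by positivity)] at h1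
  have h4 : 2 * h ≤ t / 2 * (a / ε) := by
    rw [← mul_div_assoc, le_div_iff₀ h0]; nlinarith
  nlinarith

end Thin

open Thin

variable {E σ : Type*} [Fintype σ] [NormedAddCommGroup E] [NormedSpace ℂ E]

theorem sec_rot (c : E ≃L[ℂ] (σ → ℂ)) {Z B : Set E} (hZ : IsCompact Z)
    (hN : ∀ y ∈ Z, y ∉ B → NoPeak Z y) {W : E → ℂ} (hWc : ContinuousOn W Z)
    (hW : ∀ y ∈ Z, y ∉ B → AnalyticAt ℂ W y) (θ : ℝ) {g : ℝ} (hg0 : 0 < g) (hg : g < Real.pi)
    (hB : ∀ y ∈ Z, y ∈ B → 1 < ‖W y‖ → Real.cos (rot θ (W y)).arg ≤ Real.cos g) :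
    ∀ y ∈ Z, 1 < ‖W y‖ → Real.cos (rot θ (W y)).arg ≤ Real.cos g := by
  have key := sec c hZ hN (Q := fun y => rot θ (W y)) (hWc.mul continuousOn_const)
    (fun y hy hb => (hW y hy hb).mul analyticAt_const) hg0 hg (fun y hy hb => by
      by_cases h : 1 < ‖W y‖
      · exact Or.inr ((le_abs_arg_iff _ hg0.le hg.le).2 (hB y hy hb h))
      · left; rw [norm_rot]; exact not_lt.1 h)
  intro y hy h
  rcases key y hy with h' | h'
  · rw [norm_rot] at h'; linarith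
  · exact (le_abs_arg_iff _ hg0.le hg.le).1 h'

/-- one cluster of arguments -/
theorem one_gap (c : E ≃L[ℂ] (σ → ℂ)) {Z B : Set E} (hZ : IsCompact Z)
    (hN : ∀ y ∈ Z, y ∉ B → NoPeak Z y) {W : E → ℂ} (hWc : ContinuousOn W Z)
    (hW : ∀ y ∈ Z, y ∉ B → AnalyticAt ℂ W y) {e : ℝ} (h0 : 0 < e) (h1 : e < Real.pi)
    (hB : ∀ y ∈ Z, y ∈ B → 1 < ‖W y‖ → |(W y).arg| ≤ e) :
    ∀ y ∈ Z, 1 < ‖W y‖ → |(W y).arg| ≤ e := by
  have hiff : ∀ w : ℂ, 1 < ‖w‖ →
      (Real.cos (rot Real.pi w).arg ≤ Real.cos (Real.pi - e) ↔ |w.arg| ≤ e) := fun w hw => by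
    have hw0 : w ≠ 0 := fun h => by rw [h, norm_zero] at hw; linarith
    rw [cos_rot hw0 Real.pi 0, rot_zero, add_zero, Real.cos_sub_pi, Real.cos_pi_sub, neg_le_neg_iff,
      abs_arg_le_iff _ h0.le h1.le]
  intro y hy h
  exact (hiff _ h).1 (sec_rot c hZ hN hWc hW Real.pi (by linarith) (by linarith)
    (fun x hx hb h' => (hiff _ h').2 (hB x hx hb h')) y hy h)

/-- two clusters of arguments, at `0` and at `J` -/
theorem two_gap (c : E ≃L[ℂ] (σ → ℂ)) {Z B : Set E} (hZ : IsCompact Z)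
    (hN : ∀ y ∈ Z, y ∉ B → NoPeak Z y) {W : E → ℂ} (hWc : ContinuousOn W Z)
    (hW : ∀ y ∈ Z, y ∉ B → AnalyticAt ℂ W y) {J e1 e2 : ℝ} (h1 : 0 < e1) (h2 : 0 < e2)
    (h12 : e1 + e2 < J) (hJ : J ≤ Real.pi)
    (hB : ∀ y ∈ Z, y ∈ B → 1 < ‖W y‖ → |(W y).arg| ≤ e1 ∨ |(rot J (W y)).arg| ≤ e2) :
    ∀ y ∈ Z, 1 < ‖W y‖ → |(W y).arg| ≤ e1 ∨ |(rot J (W y)).arg| ≤ e2 := by
  have hne : ∀ w : ℂ, 1 < ‖w‖ → w ≠ 0 := fun w hw h => by rw [h, norm_zero] at hw; linarith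
  have k1 := sec_rot c hZ hN hWc hW ((e1 + J - e2) / 2) (g := (J - e1 - e2) / 2) (by linarith)
    (by linarith) (fun y hy hb h => by
      rcases hB y hy hb h with h' | h'
      · rw [cos_rot (hne _ h) _ 0, rot_zero, ← Real.cos_neg]
        have := abs_le.1 h'
        exact cos_le_of_mem (by linarith) (by linarith) (by linarith)
      · rw [cos_rot (hne _ h) _ J]
        have := abs_le.1 h'
        exact cos_le_of_mem (by linarith) (by linarith) (by linarith))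
  have k2 := sec_rot c hZ hN hWc hW ((J + e2 + 2 * Real.pi - e1) / 2)
    (g := (2 * Real.pi - J - e1 - e2) / 2) (by linarith) (by linarith) (fun y hy hb h => by
      rcases hB y hy hb h with h' | h'
      · rw [cos_rot (hne _ h) _ 0, rot_zero, ← Real.cos_add_two_pi]
        have := abs_le.1 h'
        exact cos_le_of_mem (by linarith) (by linarith) (by linarith)
      · rw [cos_rot (hne _ h) _ J, ← Real.cos_neg]
        have := abs_le.1 h'
        exact cos_le_of_mem (by linarith) (by linarith) (by linarith))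
  intro y hy h
  by_contra hc
  push Not at hc
  obtain ⟨c1, c2⟩ := hc
  have a1 := k1 y hy h
  have a2 := k2 y hy h
  rw [cos_rot (hne _ h) _ J] at a1 a2
  have b1 := Complex.neg_pi_lt_arg (rot J (W y))
  have b2 := Complex.arg_le_pi (rot J (W y))
  have c3 : ¬ Real.cos e1 ≤ Real.cos ((rot J (W y)).arg + J) := by
    intro h3
    have := cos_rot (hne _ h) 0 J
    rw [rot_zero, sub_zero] at this
    rw [← this, ← abs_arg_le_iff _ h1.le (by linarith)] at h3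
    linarith
  set C := (rot J (W y)).arg
  rcases lt_abs.1 c2 with h3 | h3
  · by_cases h4 : C + J < 2 * Real.pi - e1
    · exact absurd a2 (not_le.2 (cos_lt_of_abs (abs_lt.2 ⟨by linarith, by linarith⟩) (by linarith)))
    · apply c3
      rw [← Real.cos_two_pi_sub (C + J)]
      exact Real.cos_le_cos_of_nonneg_of_le_pi (by linarith) (by linarith) (by linarith)
  · by_cases h4 : e1 < C + J
    · exact absurd a1 (not_le.2 (cos_lt_of_abs (abs_lt.2 ⟨by linarith, by linarith⟩) (by linarith)))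
    · by_cases h5 : C + J < -e1
      · rw [← Real.cos_add_two_pi] at a2
        exact absurd a2
          (not_le.2 (cos_lt_of_abs (abs_lt.2 ⟨by linarith, by linarith⟩) (by linarith)))
      · apply c3
        rw [← Real.cos_abs (C + J)]
        exact Real.cos_le_cos_of_nonneg_of_le_pi (abs_nonneg _) (by linarith)
          (abs_le.2 ⟨by linarith, by linarith⟩)

/-- thin points over a plain wall -/
theorem thin1 {t H a : ℝ} (ht : 0 < t) (hh : 0 < H) (ha : 0 < a) : ∃ ι > 0, ι ≤ t ∧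
    ∀ (E σ : Type) [Fintype σ] [NormedAddCommGroup E] [NormedSpace ℂ E] (c : E ≃L[ℂ] (σ → ℂ))
      (Z B : Set E) (ζ Q : E → ℂ) (O : ℝ), 0 < O → IsCompact Z →
      (∀ y ∈ Z, y ∉ B → NoPeak Z y) → ContinuousOn ζ Z → ContinuousOn Q Z →
      (∀ y ∈ Z, y ∉ B → AnalyticAt ℂ ζ y ∧ AnalyticAt ℂ Q y) → (∀ y ∈ Z, |(ζ y).im| ≤ H) →
      (∀ y ∈ Z, y ∈ B → O < ‖Q y‖ → |(ζ y).im| ≤ ι ∧ |(Q y).im| ≤ ι * ‖Q y‖) →
      ∀ y ∈ Z, O * Real.exp a ≤ ‖Q y‖ → |(ζ y).im| ≤ t ∧ |(Q y).im| ≤ t * ‖Q y‖ := by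
  obtain ⟨ε, e0, e1, e2, e3⟩ := small ht (show 0 < H + 1 by linarith) ha
  have hpi := Real.pi_gt_three
  have s0 : 0 < Real.sin ε := Real.sin_pos_of_pos_of_lt_pi e0 (by linarith)
  have s1 : Real.sin ε ≤ ε := Real.sin_le e0.le
  refine ⟨Real.sin ε, s0, by linarith, ?_⟩
  intro E σ _ _ _ c Z B ζ Q O hO hZ hN hζc hQc han hh' hB
  have hne : ∀ y, O < ‖Q y‖ → Q y ≠ 0 := fun y h h' => by rw [h', norm_zero] at h; linarith
  have hcl : ∀ y, O < ‖Q y‖ →
      (|((Q y / O) ^ 2).arg| ≤ 2 * ε ↔ |(Q y).im| ≤ Real.sin ε * ‖Q y‖) := fun y h => by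
    have := cl_iff 0 hO (hne y h) e0.le (by linarith)
    rwa [mul_zero, rot_zero, rot_zero] at this
  have hWc : ContinuousOn (fun y => (Q y / O) ^ 2) Z := (hQc.div_const _).pow 2
  have hW : ∀ y ∈ Z, y ∉ B → AnalyticAt ℂ (fun y => (Q y / O) ^ 2) y := fun y hy hb =>
    (han y hy hb).2.div_const.pow 2
  have k1 := one_gap c hZ hN hWc hW (e := 2 * ε) (by linarith) (by linarith) fun y hy hb h =>
    (hcl y ((one_lt_iff hO _).1 h)).2 (hB y hy hb ((one_lt_iff hO _).1 h)).2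
  have k2 : ∀ s : ℝ, |s| = 1 → ∀ y ∈ Z, O * Real.exp a ≤ ‖Q y‖ → s * (ζ y).im ≤ t := by
    intro s hs y hy h
    have hsb : ∀ (x : E) (b : ℝ), |(ζ x).im| ≤ b → s * (ζ x).im ≤ b := fun x b hb =>
      (le_abs_self _).trans (by rw [abs_mul, hs, one_mul]; exact hb)
    have hO' : O < ‖Q y‖ := by nlinarith [Real.add_one_le_exp a]
    have := conf c hZ hN hWc hW (ε := 2 * ε) (ε' := 4 * ε) (by linarith) (by linarith)
      (by linarith) (fun x hx h' => Or.inl (k1 x hx h')) (u := fun x => s * (ζ x).im)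
      (continuousOn_const.mul (Complex.continuous_im.comp_continuousOn hζc))
      (fun x hx hb => ⟨fun x => s * (-Complex.I * ζ x),
        analyticAt_const.mul (analyticAt_const.mul (han x hx hb).1),
        Eventually.of_forall fun x _ => by simp⟩)
      (h := H + 1) (t := Real.sin ε) (by linarith)
      (fun x hx _ _ => by linarith [hsb x H (hh' x hx)])
      (fun x hx hb h' _ => hsb x _ (hB x hx hb ((one_lt_iff hO _).1 h')).1) (a := 2 * a)
      (by linarith) y hy (exp_le_of hO h) (k1 y hy ((one_lt_iff hO _).2 hO'))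
    have e4 := Real.exp_pos (-(2 * a) / (2 * ε))
    nlinarith
  intro y hy h
  have hO' : O < ‖Q y‖ := by nlinarith [Real.add_one_le_exp a]
  refine ⟨abs_le.2 ⟨by linarith [k2 (-1) (by simp) y hy h], by linarith [k2 1 (by simp) y hy h]⟩,
    ((hcl y hO').1 (k1 y hy ((one_lt_iff hO _).2 hO'))).trans ?_⟩
  exact mul_le_mul_of_nonneg_right (by linarith) (norm_nonneg _)

theorem log_norm_lre {F : E → ℂ} {y : E} (hF : AnalyticAt ℂ F y) (h0 : F y ≠ 0) :
    ∃ G : E → ℂ, AnalyticAt ℂ G y ∧ ∀ᶠ x in 𝓝 y, Real.log ‖F x‖ = (G x).re := by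
  refine ⟨fun x => Complex.log (F x / F y) + Real.log ‖F y‖, ?_, ?_⟩
  · refine AnalyticAt.add (hF.div_const.clog ?_) analyticAt_const
    rw [div_self h0]; exact Complex.one_mem_slitPlane
  · filter_upwards [hF.continuousAt.eventually_ne h0] with x hx
    rw [Complex.add_re, Complex.log_re, Complex.ofReal_re, norm_div,
      Real.log_div (norm_ne_zero_iff.2 hx) (norm_ne_zero_iff.2 h0)]
    ring

/-- thin points for a plain wall together with a port wall: `b` plays the role of the Blaschke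
factor of the window -/
theorem thin2 {L t H : ℝ} (hL : 5000 ≤ L) (ht : 0 < t) (hh : 0 < H) : ∃ ι > 0, ι ≤ t ∧
    ∀ (E σ : Type) [Fintype σ] [NormedAddCommGroup E] [NormedSpace ℂ E] (c : E ≃L[ℂ] (σ → ℂ))
      (Z B : Set E) (ζ b Q : E → ℂ) (O j : ℝ), (j = 1 ∨ j = 2) → 0 < O → IsCompact Z →
      (∀ y ∈ Z, y ∉ B → NoPeak Z y) → ContinuousOn ζ Z → ContinuousOn b Z → ContinuousOn Q Z →
      (∀ y ∈ Z, y ∉ B → AnalyticAt ℂ ζ y ∧ AnalyticAt ℂ b y ∧ AnalyticAt ℂ Q y) →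
      (∀ y ∈ Z, |(ζ y).im| ≤ H ∧ ‖b y‖ ≤ Real.exp 1 ∧ (b y = 0 → ‖Q y‖ < O)) →
      (∀ y ∈ Z, y ∈ B → O < ‖Q y‖ → (|(ζ y).im| ≤ ι ∧ |(Q y).im| ≤ ι * ‖Q y‖) ∨
        (‖b y‖ ≤ Real.exp (-L + 1) ∧
          |(Q y * Complex.exp (-(Complex.I * (j * Real.pi / 4)))).im| ≤ 4 / L * ‖Q y‖)) →
      ∀ y ∈ Z, O * Real.exp (1 / 4) ≤ ‖Q y‖ → (|(ζ y).im| ≤ t ∧ |(Q y).im| ≤ t * ‖Q y‖) ∨
        ‖b y‖ < Real.exp (-L + 2) := by
  obtain ⟨ε, e0, e1, e2, e3⟩ := small ht (show 0 < H + 1 by linarith) (show (0 : ℝ) < 1 / 4 by norm_num)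
  have hpi := Real.pi_gt_three
  have hpi' := Real.pi_lt_four
  have s0 : 0 < Real.sin ε := Real.sin_pos_of_pos_of_lt_pi e0 (by linarith)
  have s1 : Real.sin ε ≤ ε := Real.sin_le e0.le
  refine ⟨Real.sin ε, s0, by linarith, ?_⟩
  intro E σ _ _ _ c Z B ζ b Q O j hj hO hZ hN hζc hbc hQc han hh' hB
  have hL0 : 0 < L := by linarith
  have d0 : 0 < 8 / L := by positivity
  have d1 : 8 / L ≤ 1 / 10 := by rw [div_le_iff₀ hL0]; linarith
  have d2 : 4 / L ≤ Real.sin (8 / L) := by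
    have h1 := Real.mul_le_sin d0.le (show 8 / L ≤ Real.pi / 2 by linarith)
    have h2 : 1 / 2 ≤ 2 / Real.pi := by rw [le_div_iff₀ (by linarith)]; linarith
    have h3 : 4 / L = 1 / 2 * (8 / L) := by ring
    nlinarith
  set J : ℝ := 2 * (j * Real.pi / 4) with hJ
  have J1 : Real.pi / 2 ≤ J ∧ J ≤ Real.pi := by
    rcases hj with rfl | rfl <;> constructor <;> linarith
  have hne : ∀ y, O < ‖Q y‖ → Q y ≠ 0 := fun y h h' => by rw [h', norm_zero] at h; linarith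
  have hne' : ∀ w : ℂ, 1 ≤ ‖w‖ → w ≠ 0 := fun w hw h => by rw [h, norm_zero] at hw; linarith
  have hcl : ∀ y, O < ‖Q y‖ →
      (|((Q y / O) ^ 2).arg| ≤ 2 * ε ↔ |(Q y).im| ≤ Real.sin ε * ‖Q y‖) := fun y h => by
    have := cl_iff 0 hO (hne y h) e0.le (by linarith)
    rwa [mul_zero, rot_zero, rot_zero] at this
  have hWc : ContinuousOn (fun y => (Q y / O) ^ 2) Z := (hQc.div_const _).pow 2
  have hW : ∀ y ∈ Z, y ∉ B → AnalyticAt ℂ (fun y => (Q y / O) ^ 2) y := fun y hy hb =>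
    (han y hy hb).2.2.div_const.pow 2
  have hB' : ∀ y ∈ Z, y ∈ B → 1 < ‖(Q y / O) ^ 2‖ →
      (|(ζ y).im| ≤ Real.sin ε ∧ |((Q y / O) ^ 2).arg| ≤ 2 * ε) ∨
        (‖b y‖ ≤ Real.exp (-L + 1) ∧ |(rot J ((Q y / O) ^ 2)).arg| ≤ 2 * (8 / L)) := by
    intro y hy hb h
    have h' := (one_lt_iff hO _).1 h
    rcases hB y hy hb h' with h1 | h1
    · exact Or.inl ⟨h1.1, (hcl y h').2 h1.2⟩
    · refine Or.inr ⟨h1.1, (cl_iff _ hO (hne y h') d0.le (by linarith)).2 ?_⟩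
      have e : rot (j * Real.pi / 4) (Q y) =
          Q y * Complex.exp (-(Complex.I * (j * Real.pi / 4))) := by
        rw [rot]; push_cast; rfl
      rw [e]
      exact h1.2.trans (mul_le_mul_of_nonneg_right d2 (norm_nonneg _))
  have k1 := two_gap c hZ hN hWc hW (J := J) (e1 := 2 * ε) (e2 := 2 * (8 / L)) (by linarith)
    (by linarith) (by linarith) J1.2 fun y hy hb h =>
      (hB' y hy hb h).imp (fun h => h.2) fun h => h.2
  have far1 : ∀ w : ℂ, w ≠ 0 → |(rot J w).arg| ≤ 2 * (8 / L) → 4 * ε ≤ |w.arg| := by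
    intro w hw h
    have := cos_rot hw 0 J
    rw [rot_zero, sub_zero] at this
    rw [le_abs_arg_iff _ (by linarith) (by linarith), this]
    have := abs_le.1 h
    exact cos_le_of_mem (by linarith) (by linarith) (by linarith)
  have far2 : ∀ w : ℂ, w ≠ 0 → |w.arg| ≤ 2 * ε → 4 * (8 / L) ≤ |(rot J w).arg| := by
    intro w hw h
    rw [le_abs_arg_iff _ (by linarith) (by linarith), cos_rot hw J 0, rot_zero, ← Real.cos_neg]
    have := abs_le.1 h
    exact cos_le_of_mem (by linarith) (by linarith) (by linarith)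
  have k2 : ∀ s : ℝ, |s| = 1 → ∀ y ∈ Z, O * Real.exp (1 / 4) ≤ ‖Q y‖ →
      |((Q y / O) ^ 2).arg| ≤ 2 * ε → s * (ζ y).im ≤ t := by
    intro s hs y hy h harg
    have hsb : ∀ (x : E) (b : ℝ), |(ζ x).im| ≤ b → s * (ζ x).im ≤ b := fun x b hb =>
      (le_abs_self _).trans (by rw [abs_mul, hs, one_mul]; exact hb)
    have := conf c hZ hN hWc hW (ε := 2 * ε) (ε' := 4 * ε) (by linarith) (by linarith)
      (by linarith) (fun x hx h' => (k1 x hx h').imp id (far1 _ (hne' _ h'.le)))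
      (u := fun x => s * (ζ x).im)
      (continuousOn_const.mul (Complex.continuous_im.comp_continuousOn hζc))
      (fun x hx hb => ⟨fun x => s * (-Complex.I * ζ x),
        analyticAt_const.mul (analyticAt_const.mul (han x hx hb).1),
        Eventually.of_forall fun x _ => by simp⟩)
      (h := H + 1) (t := Real.sin ε) (by linarith)
      (fun x hx _ _ => by linarith [hsb x H (hh' x hx).1])
      (fun x hx hb h' h2 => by
        rcases hB' x hx hb h' with h3 | h3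
        · exact hsb x _ h3.1
        · linarith [far1 _ (hne' _ h'.le) h3.2]) (a := 2 * (1 / 4))
      (by linarith) y hy (exp_le_of hO h) harg
    have e4 := Real.exp_pos (-(2 * (1 / 4)) / (2 * ε))
    nlinarith
  intro y hy h
  have hO' : O < ‖Q y‖ := by nlinarith [Real.add_one_le_exp (1 / 4)]
  rcases k1 y hy ((one_lt_iff hO _).2 hO') with h1 | h1
  · refine Or.inl ⟨abs_le.2 ⟨by linarith [k2 (-1) (by simp) y hy h h1],
      by linarith [k2 1 (by simp) y hy h h1]⟩, ((hcl y hO').1 h1).trans ?_⟩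
    exact mul_le_mul_of_nonneg_right (by linarith) (norm_nonneg _)
  right
  set Z' : Set E := Z ∩ Q ⁻¹' {w | O ≤ ‖w‖} with hZ'
  have hc : IsCompact Z' := hZ.of_isClosed_subset
    (hQc.preimage_isClosed_of_isClosed hZ.isClosed (isClosed_le continuous_const continuous_norm))
    Set.inter_subset_left
  have hb0 : ∀ x ∈ Z', b x ≠ 0 := fun x hx h0 => absurd ((hh' x hx.1).2.2 h0) (not_lt.2 hx.2)
  have hnb : ∀ x, x ∉ B ∪ {x | ‖Q x‖ = O} → x ∉ B := fun x hx h => hx (Or.inl h)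
  have key := conf c (B := B ∪ {x | ‖Q x‖ = O}) hc (Q := fun x => rot J ((Q x / O) ^ 2))
    (fun x hx hn => (hN x hx.1 (hnb x hn)).mono (by
      have h2 : O < ‖Q x‖ := lt_of_le_of_ne hx.2 fun h => hn (Or.inr h.symm)
      filter_upwards [ev_of_cont (hQc x hx.1).norm (lt_mem_nhds h2)] with x' a hx'
      exact ⟨hx', le_of_lt (a hx')⟩))
    ((hWc.mono Set.inter_subset_left).mul continuousOn_const)
    (fun x hx hn => (hW x hx.1 (hnb x hn)).mul analyticAt_const)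
    (ε := 2 * (8 / L)) (ε' := 4 * (8 / L)) (by linarith) (by linarith) (by linarith)
    (fun x hx h' => by
      rw [norm_rot] at h'
      exact ((k1 x hx.1 h').imp (far2 _ (hne' _ h'.le)) id).symm)
    (u := fun x => Real.log ‖b x‖)
    ((hbc.mono Set.inter_subset_left).norm.log fun x hx => norm_ne_zero_iff.2 (hb0 x hx))
    (fun x hx hn => by
      obtain ⟨G, hG, hG'⟩ := log_norm_lre (han x hx.1 (hnb x hn)).2.1 (hb0 x hx)
      exact ⟨G, hG, by filter_upwards [hG'] with x' a _ using a⟩)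
    (h := 1) (t := -L + 1) (by linarith)
    (fun x hx _ _ => (Real.log_le_iff_le_exp (norm_pos_iff.2 (hb0 x hx))).2 (hh' x hx.1).2.1)
    (fun x hx hb h' h2 => by
      rw [norm_rot] at h'
      have hb' : x ∈ B := hb.resolve_right fun h3 => ((one_lt_iff hO _).1 h').ne' h3
      rcases hB' x hx.1 hb' h' with h3 | h3
      · linarith [far2 _ (hne' _ h'.le) h3.2]
      · exact (Real.log_le_iff_le_exp (norm_pos_iff.2 (hb0 x hx))).2 h3.1) (a := 2 * (1 / 4))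
    (by linarith) y ⟨hy, hO'.le⟩ (by rw [norm_rot]; exact exp_le_of hO h) h1
  rw [← Real.log_lt_iff_lt_exp (norm_pos_iff.2 (hb0 y ⟨hy, hO'.le⟩))]
  have f1 : -(2 * (1 / 4)) / (2 * (8 / L)) = -(L / 32) := by field_simp; ring
  have f2 : 2 * L < Real.exp (L / 32) := by
    have := Real.quadratic_le_exp_of_nonneg (show 0 ≤ L / 32 by linarith)
    nlinarith
  have f3 : 2 * L * Real.exp (-(L / 32)) < 1 := by
    rw [Real.exp_neg, ← div_eq_mul_inv, div_lt_one (Real.exp_pos _)]; exact f2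
  rw [f1] at key
  linarith

end Pool.Agent.HULL
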