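import Pool.Agent.Lib.HULL.Barrier

open Filter Topology

namespace Pool.Agent.HULL.Z59

variable {E σ : Type*} [Fintype σ] [NormedAddCommGroup E] [NormedSpace ℂ E]

theorem abs_arg_le_iff {w : ℂ} (hw : w ≠ 0) {g : ℝ} (h0 : 0 ≤ g) (h1 : g ≤ Real.pi) :
    |w.arg| ≤ g ↔ ‖w‖ * Real.cos g ≤ w.re := by
  rw [← Complex.norm_mul_cos_arg w, mul_le_mul_iff_right₀ (norm_pos_iff.2 hw),
    ← Real.cos_abs w.arg]
  exact (Real.strictAntiOn_cos.le_iff_ge ⟨h0, h1⟩ ⟨abs_nonneg _, Complex.abs_arg_le_pi _⟩).symm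

theorem le_abs_arg_iff {w : ℂ} (hw : w ≠ 0) {g : ℝ} (h0 : 0 ≤ g) (h1 : g ≤ Real.pi) :
    g ≤ |w.arg| ↔ w.re ≤ ‖w‖ * Real.cos g := by
  rw [← Complex.norm_mul_cos_arg w, mul_le_mul_iff_right₀ (norm_pos_iff.2 hw),
    ← Real.cos_abs w.arg]
  exact (Real.strictAntiOn_cos.le_iff_ge ⟨abs_nonneg _, Complex.abs_arg_le_pi _⟩ ⟨h0, h1⟩).symm

theorem arg_neg_iff {w : ℂ} (hw : w ≠ 0) {g : ℝ} (h0 : 0 ≤ g) (h1 : g ≤ Real.pi) :
    Real.pi - g ≤ |(-w).arg| ↔ |w.arg| ≤ g := by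
  rw [le_abs_arg_iff (neg_ne_zero.2 hw) (by linarith) (by linarith), abs_arg_le_iff hw h0 h1,
    Real.cos_pi_sub, norm_neg, Complex.neg_re, mul_neg, neg_le_neg_iff]

theorem re_sq (q : ℂ) : (q ^ 2).re = ‖q‖ ^ 2 - 2 * q.im ^ 2 := by
  rw [Complex.sq_norm, Complex.normSq_apply]; simp [sq]; ring

theorem arg_sq_le {q : ℂ} (hq : q ≠ 0) {δ : ℝ} (h0 : 0 ≤ δ) (h1 : δ ≤ 1)
    (h : |q.im| ≤ δ * ‖q‖) : |(q ^ 2).arg| ≤ Real.pi * δ := by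
  have hp := Real.pi_pos
  have h2 : Real.pi * δ ≤ Real.pi := by nlinarith
  rw [abs_arg_le_iff (pow_ne_zero 2 hq) (by positivity) h2, re_sq, norm_pow]
  have a := Real.cos_le_one_sub_mul_cos_sq (x := Real.pi * δ)
    (by rw [abs_of_nonneg (by positivity)]; exact h2)
  have b : 2 / Real.pi ^ 2 * (Real.pi * δ) ^ 2 = 2 * δ ^ 2 := by field_simp
  have c : q.im ^ 2 ≤ (δ * ‖q‖) ^ 2 := by
    rw [← sq_abs]; exact pow_le_pow_left₀ (abs_nonneg _) h 2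
  have d := mul_le_mul_of_nonneg_left a (sq_nonneg ‖q‖)
  rw [b] at d
  nlinarith

theorem im_le_of_arg_sq {q : ℂ} {ε : ℝ} (h1 : ε ≤ Real.pi) (h : |(q ^ 2).arg| ≤ ε) :
    |q.im| ≤ ε / 2 * ‖q‖ := by
  have h0 : 0 ≤ ε := (abs_nonneg _).trans h
  by_cases hq : q = 0
  · simp [hq]
  rw [abs_arg_le_iff (pow_ne_zero 2 hq) h0 h1, re_sq, norm_pow] at h
  have a := Real.one_sub_sq_div_two_le_cos (x := ε)
  have d := mul_le_mul_of_nonneg_left a (sq_nonneg ‖q‖)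
  exact abs_le_of_sq_le_sq' (by nlinarith) (by positivity) |> abs_le.2

theorem sec_one (c : E ≃L[ℂ] (σ → ℂ)) {Z B : Set E} (hZ : IsCompact Z)
    (hN : ∀ y ∈ Z, y ∉ B → NoPeak Z y) {Q : E → ℂ} (hQc : ContinuousOn Q Z)
    (hQ : ∀ y ∈ Z, y ∉ B → AnalyticAt ℂ Q y) {ε : ℝ} (h0 : 0 < ε) (h1 : ε < Real.pi)
    (hB : ∀ y ∈ Z, y ∈ B → 1 < ‖Q y‖ → |(Q y).arg| ≤ ε) :
    ∀ y ∈ Z, 1 < ‖Q y‖ → |(Q y).arg| ≤ ε := by
  have ne : ∀ y, 1 < ‖Q y‖ → Q y ≠ 0 := fun y h => norm_pos_iff.1 (by linarith)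
  have := sec c hZ hN (Q := fun y => -Q y) hQc.neg (fun y hy hb => (hQ y hy hb).neg)
    (g := Real.pi - ε) (by linarith) (by linarith) (fun y hy hb => by
      rw [norm_neg]
      exact (le_or_gt ‖Q y‖ 1).imp_right fun h =>
        (arg_neg_iff (ne y h) h0.le h1.le).2 (hB y hy hb h))
  intro y hy h
  have a := this y hy
  rw [norm_neg] at a
  exact (arg_neg_iff (ne y h) h0.le h1.le).1 (a.resolve_left (not_le.2 h))

theorem thin_one (c : E ≃L[ℂ] (σ → ℂ)) {Z B : Set E} (hZ : IsCompact Z)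
    (hN : ∀ y ∈ Z, y ∉ B → NoPeak Z y) {Q : E → ℂ} (hQc : ContinuousOn Q Z)
    (hQ : ∀ y ∈ Z, y ∉ B → AnalyticAt ℂ Q y) {δ : ℝ} (h0 : 0 < δ) (h1 : δ < 1)
    {u : E → ℝ} (huc : ContinuousOn u Z)
    (hu : ∀ y ∈ Z, y ∉ B → ∃ G : E → ℂ, AnalyticAt ℂ G y ∧
      ∀ᶠ x in 𝓝 y, x ∈ Z → u x = (G x).re) {h t : ℝ} (ht : t < h) (hh : ∀ y ∈ Z, u y ≤ h)
    (hB : ∀ y ∈ Z, y ∈ B → 1 < ‖Q y‖ → |(Q y).im| ≤ δ * ‖Q y‖ ∧ u y ≤ t) {a : ℝ} (ha : 0 < a) :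
    ∀ y ∈ Z, Real.exp a ≤ ‖Q y‖ →
      |(Q y).im| ≤ 2 * δ * ‖Q y‖ ∧ u y ≤ t + 2 * (h - t) * Real.exp (-a / (2 * δ)) := by
  have hp := Real.pi_pos
  have hε0 : 0 < Real.pi * δ := by positivity
  have hε1 : Real.pi * δ < Real.pi := by nlinarith
  have sq1 : ∀ y, 1 < ‖Q y ^ 2‖ → 1 < ‖Q y‖ := fun y h => by
    rw [norm_pow] at h; nlinarith [norm_nonneg (Q y)]
  have s1 := sec_one c hZ hN (Q := fun y => Q y ^ 2) (hQc.pow 2)
    (fun y hy hb => (hQ y hy hb).pow 2) hε0 hε1 (fun y hy hb h =>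
      arg_sq_le (norm_pos_iff.1 (by linarith [sq1 y h])) h0.le h1.le (hB y hy hb (sq1 y h)).1)
  have s2 := conf c hZ hN (Q := fun y => Q y ^ 2) (hQc.pow 2)
    (fun y hy hb => (hQ y hy hb).pow 2) hε0 hε1 hε1 (fun y hy h => Or.inl (s1 y hy h)) huc hu ht
    (fun y hy _ _ => hh y hy) (fun y hy hb h _ => (hB y hy hb (sq1 y h)).2)
    (a := 2 * a) (by linarith)
  intro y hy hQy
  have e1 : Real.exp (2 * a) ≤ ‖Q y ^ 2‖ := by
    rw [norm_pow, two_mul, Real.exp_add, ← sq]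
    exact pow_le_pow_left₀ (Real.exp_pos a).le hQy 2
  have e2 := s1 y hy ((Real.one_lt_exp_iff.2 (by linarith)).trans_le e1)
  have p4 := Real.pi_le_four
  refine ⟨(im_le_of_arg_sq hε1.le e2).trans
    (mul_le_mul_of_nonneg_right (by nlinarith) (norm_nonneg _)), (s2 y hy e1 e2).trans ?_⟩
  have e3 : -(2 * a) / (Real.pi * δ) ≤ -a / (2 * δ) := by
    rw [div_le_div_iff₀ hε0 (by positivity)]; nlinarith [mul_pos ha h0]
  have := Real.exp_le_exp.2 e3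
  nlinarith

theorem thin_im (c : E ≃L[ℂ] (σ → ℂ)) {Z B : Set E} (hZ : IsCompact Z)
    (hN : ∀ y ∈ Z, y ∉ B → NoPeak Z y) {Q ζ : E → ℂ} (hQc : ContinuousOn Q Z)
    (hQ : ∀ y ∈ Z, y ∉ B → AnalyticAt ℂ Q y) (hζc : ContinuousOn ζ Z)
    (hζ : ∀ y ∈ Z, y ∉ B → AnalyticAt ℂ ζ y) {δ : ℝ} (h0 : 0 < δ) (h1 : δ < 1)
    {h t : ℝ} (ht : t < h) (hh : ∀ y ∈ Z, |(ζ y).im| ≤ h)
    (hB : ∀ y ∈ Z, y ∈ B → 1 < ‖Q y‖ → |(Q y).im| ≤ δ * ‖Q y‖ ∧ |(ζ y).im| ≤ t) {a : ℝ}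
    (ha : 0 < a) : ∀ y ∈ Z, Real.exp a ≤ ‖Q y‖ →
      |(Q y).im| ≤ 2 * δ * ‖Q y‖ ∧
        |(ζ y).im| ≤ t + 2 * (h - t) * Real.exp (-a / (2 * δ)) := by
  have a1 := thin_one c hZ hN hQc hQ h0 h1 (u := fun y => (ζ y).im)
    (Complex.continuous_im.comp_continuousOn hζc) (fun y hy hb =>
      ⟨fun x => -Complex.I * ζ x, analyticAt_const.mul (hζ y hy hb),
        Eventually.of_forall fun x _ => by simp⟩) ht (fun y hy => (le_abs_self _).trans (hh y hy))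
    (fun y hy hb h => ⟨(hB y hy hb h).1, (le_abs_self _).trans (hB y hy hb h).2⟩) ha
  have a2 := thin_one c hZ hN hQc hQ h0 h1 (u := fun y => -(ζ y).im)
    (Complex.continuous_im.comp_continuousOn hζc).neg (fun y hy hb =>
      ⟨fun x => Complex.I * ζ x, analyticAt_const.mul (hζ y hy hb),
        Eventually.of_forall fun x _ => by simp⟩) ht (fun y hy => (neg_le_abs _).trans (hh y hy))
    (fun y hy hb h => ⟨(hB y hy hb h).1, (neg_le_abs _).trans (hB y hy hb h).2⟩) ha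
  intro y hy h
  exact ⟨(a1 y hy h).1, abs_le.2 ⟨by linarith [(a2 y hy h).2], (a1 y hy h).2⟩⟩

theorem im_mul_exp {p w : ℂ} {δ : ℝ} (h : |p.im| ≤ δ * ‖p‖) :
    |(p * Complex.exp w).im| ≤ (δ + |w.im|) * ‖p * Complex.exp w‖ := by
  rw [Complex.mul_im, Complex.exp_im, Complex.exp_re, norm_mul, Complex.norm_exp]
  have e := Real.exp_pos w.re
  have a1 : |p.re * (Real.exp w.re * Real.sin w.im)| ≤ ‖p‖ * (Real.exp w.re * |w.im|) := by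
    rw [abs_mul, abs_mul, abs_of_pos e]
    have := Complex.abs_re_le_norm p
    have := Real.abs_sin_le_abs (x := w.im)
    gcongr
  have a2 : |p.im * (Real.exp w.re * Real.cos w.im)| ≤ δ * ‖p‖ * (Real.exp w.re * 1) := by
    rw [abs_mul, abs_mul, abs_of_pos e]
    have := Real.abs_cos_le_one w.im
    have := (abs_nonneg _).trans h
    gcongr
  linarith [abs_add_le (p.re * (Real.exp w.re * Real.sin w.im))
    (p.im * (Real.exp w.re * Real.cos w.im))]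

end Pool.Agent.HULL.Z59
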