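import Mathlib

open MvPolynomial Filter Topology

namespace Pool.Agent.HULL

theorem bal {A : Type*} [NormedCommRing A] [NormedAlgebra ℂ A] [CompleteSpace A] (v g : A)
    {m θ : ℝ} (hm : 0 ≤ m) (hθ : m < θ)
    (H : ∀ φ : A →ₐ[ℂ] ℂ, φ v = 0 → ‖φ g‖ ≤ m) :
    ∃ n : ℕ, 1 ≤ n ∧ ∃ h : A, ‖g ^ n - v * h‖ < θ ^ n := by
  set I : Ideal A := (Ideal.span {v}).closure with hI
  have hc : IsClosed (I : Set A) := isClosed_closure
  have : CompleteSpace (A ⧸ I) := Submodule.Quotient.completeSpace I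
  set gb : A ⧸ I := Ideal.Quotient.mk I g with hgb
  have hθ0 : 0 < θ := lt_of_le_of_lt hm hθ
  have hsr : spectralRadius ℂ gb ≤ ENNReal.ofReal m := by
    unfold spectralRadius
    refine iSup₂_le fun k hk => ?_
    obtain ⟨f, hf⟩ := WeakDual.CharacterSpace.mem_spectrum_iff_exists.1 hk
    let φ : A →ₐ[ℂ] ℂ := (WeakDual.CharacterSpace.toAlgHom f).comp (Ideal.Quotient.mkₐ ℂ I)
    have hv : φ v = 0 := by
      have : Ideal.Quotient.mk I v = 0 :=
        Ideal.Quotient.eq_zero_iff_mem.2 (subset_closure (Ideal.subset_span (Set.mem_singleton v)))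
      show f (Ideal.Quotient.mk I v) = 0
      rw [this, map_zero]
    have h1 : ‖k‖ ≤ m := by
      have := H φ hv
      rw [← hf]; exact this
    have h4 : (‖k‖₊ : ENNReal) = ENNReal.ofReal ‖k‖ := (ofReal_norm k).symm
    rw [h4]; exact ENNReal.ofReal_le_ofReal h1
  have hlt : spectralRadius ℂ gb < ENNReal.ofReal θ :=
    lt_of_le_of_lt hsr ((ENNReal.ofReal_lt_ofReal_iff hθ0).2 hθ)
  have hev := (spectrum.pow_norm_pow_one_div_tendsto_nhds_spectralRadius gb).eventually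
    (gt_mem_nhds hlt)
  obtain ⟨n, hn, hn1⟩ := (hev.and (eventually_ge_atTop 1)).exists
  refine ⟨n, hn1, ?_⟩
  have h2 : ‖gb ^ n‖ ^ (1 / n : ℝ) < θ := (ENNReal.ofReal_lt_ofReal_iff hθ0).1 hn
  have hn0 : n ≠ 0 := by omega
  have h3 : ‖gb ^ n‖ < θ ^ n := by
    have := pow_lt_pow_left₀ h2 (by positivity) hn0
    rwa [one_div, Real.rpow_inv_natCast_pow (norm_nonneg _) hn0] at this
  obtain ⟨r, hr, hr2⟩ := Ideal.Quotient.norm_mk_lt (gb ^ n) (sub_pos.2 h3)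
  have hr3 : ‖r‖ < θ ^ n := by linarith
  have hmem : g ^ n - r ∈ I := by
    rw [← Ideal.Quotient.eq, hr, map_pow]
  have hcl : g ^ n - r ∈ closure ((Ideal.span {v} : Ideal A) : Set A) := hmem
  obtain ⟨b, hb, hb2⟩ := Metric.mem_closure_iff.1 hcl (θ ^ n - ‖r‖) (sub_pos.2 hr3)
  obtain ⟨h, rfl⟩ := Ideal.mem_span_singleton.1 hb
  refine ⟨h, ?_⟩
  rw [dist_eq_norm] at hb2
  calc ‖g ^ n - v * h‖ = ‖(g ^ n - r - v * h) + r‖ := by congr 1; ring
    _ ≤ ‖g ^ n - r - v * h‖ + ‖r‖ := norm_add_le _ _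
    _ < θ ^ n := by linarith

variable {E σ : Type*}

def Hull (c : E → σ → ℂ) (K : Set E) : Set E :=
  {x | ∀ (p : MvPolynomial σ ℂ) (M : ℝ), (∀ y ∈ K, ‖eval (c y) p‖ ≤ M) → ‖eval (c x) p‖ ≤ M}

theorem spec [TopologicalSpace E] {c : E → σ → ℂ} (hc : Continuous c)
    (hs : Function.Surjective c) {K : Set E} (hK : IsCompact K) (v g : MvPolynomial σ ℂ)
    {m θ : ℝ} (hm : 0 ≤ m) (hθ : m < θ)
    (H : ∀ y ∈ Hull c K, eval (c y) v = 0 → ‖eval (c y) g‖ ≤ m) :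
    ∃ n : ℕ, 1 ≤ n ∧ ∃ h : MvPolynomial σ ℂ, ∃ s < θ ^ n,
      ∀ y ∈ K, ‖eval (c y) (g ^ n - v * h)‖ ≤ s := by
  have : CompactSpace K := isCompact_iff_compactSpace.1 hK
  let z : σ → C(K, ℂ) := fun i => ⟨fun y => c y i, by fun_prop⟩
  let Φ : MvPolynomial σ ℂ →ₐ[ℂ] C(K, ℂ) := aeval z
  have hΦ : ∀ p (y : K), Φ p y = eval (c y) p := by
    intro p y
    induction p using MvPolynomial.induction_on with
    | C a => simp [Φ]
    | add p q hp hq => simp [hp, hq]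
    | mul_X p i hp => rw [map_mul, map_mul, ContinuousMap.mul_apply, hp]; simp [Φ, z]
  let A : Subalgebra ℂ C(K, ℂ) := Φ.range.topologicalClosure
  have hAc : IsClosed (A : Set C(K, ℂ)) := Subalgebra.isClosed_topologicalClosure _
  have : CompleteSpace A := hAc.completeSpace_coe
  let Ψ : MvPolynomial σ ℂ →ₐ[ℂ] A :=
    Φ.codRestrict A fun p => Subalgebra.le_topologicalClosure _ ⟨p, rfl⟩
  have hΨ : ∀ p, ((Ψ p : A) : C(K, ℂ)) = Φ p := fun p => rfl
  have h1 : ‖(1 : A)‖ ≤ 1 := by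
    show ‖(1 : C(K, ℂ))‖ ≤ 1
    exact (ContinuousMap.norm_le _ zero_le_one).2 fun y => by simp
  obtain ⟨n, hn, h, hh⟩ := bal (Ψ v) (Ψ g) hm hθ (by
    intro φ hφ
    obtain ⟨y, hy⟩ := hs fun i => φ (Ψ (X i))
    have hev : ∀ p, φ (Ψ p) = eval (c y) p := by
      intro p
      induction p using MvPolynomial.induction_on with
      | C a =>
        rw [eval_C, ← algebraMap_eq, AlgHom.commutes, AlgHom.commutes]; rfl
      | add p q hp hq => rw [map_add, map_add, map_add, hp, hq]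
      | mul_X p i hp => rw [map_mul, map_mul, map_mul, hp, eval_X, hy]
    have hyH : y ∈ Hull c K := by
      intro p M hM
      by_cases hne : K.Nonempty
      · obtain ⟨y0, hy0⟩ := hne
        have hM0 : 0 ≤ M := (norm_nonneg _).trans (hM y0 hy0)
        have h2 : ‖Ψ p‖ ≤ M := by
          show ‖Φ p‖ ≤ M
          exact (ContinuousMap.norm_le _ hM0).2 fun t => by rw [hΦ]; exact hM t t.2
        rw [← hev]
        calc ‖φ (Ψ p)‖ ≤ ‖Ψ p‖ * ‖(1 : A)‖ := AlgHom.norm_apply_le_self_mul_norm_one φ _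
          _ ≤ M * 1 := mul_le_mul h2 h1 (norm_nonneg _) hM0
          _ = M := mul_one M
      · exfalso
        have h0 : (1 : A) = 0 := by
          apply Subtype.ext
          ext t
          exact (hne ⟨t, t.2⟩).elim
        have := map_one φ
        rw [h0, map_zero] at this
        exact zero_ne_one this
    rw [hev]
    exact H y hyH (by rw [← hev]; exact hφ))
  set η : ℝ := θ ^ n - ‖Ψ g ^ n - Ψ v * h‖ with hη
  have hη0 : 0 < η := sub_pos.2 hh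
  have hv1 : 0 < ‖Φ v‖ + 1 := by positivity
  obtain ⟨b, ⟨q, rfl⟩, hb⟩ := Metric.mem_closure_iff.1 h.2 (η / 2 / (‖Φ v‖ + 1)) (by positivity)
  refine ⟨n, hn, q, θ ^ n - η / 2, by linarith, fun y hy => ?_⟩
  have e1 : eval (c y) (g ^ n - v * q) = Φ (g ^ n - v * q) ⟨y, hy⟩ := (hΦ _ ⟨y, hy⟩).symm
  rw [e1]
  refine (ContinuousMap.norm_coe_le_norm _ _).trans ?_
  have e2 : Φ (g ^ n - v * q) = ((Ψ g ^ n - Ψ v * h : A) : C(K, ℂ)) + Φ v * ((h : C(K, ℂ)) - Φ q) := by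
    simp only [map_sub, map_pow, map_mul, AddSubgroupClass.coe_sub, SubmonoidClass.coe_pow,
      MulMemClass.coe_mul, hΨ]
    ring
  rw [e2]
  refine (norm_add_le _ _).trans ?_
  have e3 : ‖((Ψ g ^ n - Ψ v * h : A) : C(K, ℂ))‖ = θ ^ n - η := by
    rw [hη]; simp only [sub_sub_cancel]; rfl
  rw [dist_eq_norm] at hb
  have hb' : ‖(h : C(K, ℂ)) - Φ q‖ ≤ η / 2 / (‖Φ v‖ + 1) := hb.le
  have e4 : ‖Φ v * ((h : C(K, ℂ)) - Φ q)‖ ≤ η / 2 := by
    calc _ ≤ ‖Φ v‖ * ‖(h : C(K, ℂ)) - Φ q‖ := norm_mul_le _ _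
      _ ≤ (‖Φ v‖ + 1) * (η / 2 / (‖Φ v‖ + 1)) :=
        mul_le_mul (by linarith) hb' (norm_nonneg _) hv1.le
      _ = η / 2 := by field_simp
  linarith

theorem cont_eval [TopologicalSpace E] {c : E → σ → ℂ} (hc : Continuous c)
    (p : MvPolynomial σ ℂ) : Continuous fun y => eval (c y) p :=
  (MvPolynomial.continuous_eval p).comp hc

theorem unif [TopologicalSpace E] {c : E → σ → ℂ} (hc : Continuous c)
    (hs : Function.Surjective c) {K : Set E} (hK : IsCompact K) (u g : MvPolynomial σ ℂ)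
    (a : ℂ) (ρ : ℝ) {m θ : ℝ} (hm : 0 ≤ m) (hθ : m < θ)
    (H : ∀ y ∈ Hull c K, ‖eval (c y) u - a‖ = ρ → ‖eval (c y) g‖ ≤ m) :
    ∃ (N : ℕ) (B : ℝ), 0 ≤ B ∧ ∀ l ∈ Metric.sphere a ρ, ∃ n : ℕ, 1 ≤ n ∧ n ≤ N ∧
      ∃ h : MvPolynomial σ ℂ, (∀ y ∈ K, ‖eval (c y) h‖ ≤ B) ∧
        ∀ y ∈ K, ‖eval (c y) (g ^ n - (u - C l) * h)‖ ≤ θ ^ n := by
  refine (isCompact_sphere a ρ).induction_on (p := fun S => ∃ (N : ℕ) (B : ℝ), 0 ≤ B ∧ ∀ l ∈ S,
    ∃ n : ℕ, 1 ≤ n ∧ n ≤ N ∧ ∃ h : MvPolynomial σ ℂ, (∀ y ∈ K, ‖eval (c y) h‖ ≤ B) ∧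
        ∀ y ∈ K, ‖eval (c y) (g ^ n - (u - C l) * h)‖ ≤ θ ^ n) ?_ ?_ ?_ ?_
  · exact ⟨0, 0, le_rfl, fun l hl => hl.elim⟩
  · rintro S T hST ⟨N, B, hB, h⟩
    exact ⟨N, B, hB, fun l hl => h l (hST hl)⟩
  · rintro S T ⟨N, B, hB, h⟩ ⟨N', B', hB', h'⟩
    refine ⟨max N N', max B B', le_max_of_le_left hB, ?_⟩
    rintro l (hl | hl)
    · obtain ⟨n, h1, h2, q, h3, h4⟩ := h l hl
      exact ⟨n, h1, le_max_of_le_left h2, q, fun y hy => le_max_of_le_left (h3 y hy), h4⟩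
    · obtain ⟨n, h1, h2, q, h3, h4⟩ := h' l hl
      exact ⟨n, h1, le_max_of_le_right h2, q, fun y hy => le_max_of_le_right (h3 y hy), h4⟩
  · intro l0 hl0
    obtain ⟨n, hn, h, s, hs1, hs2⟩ := spec hc hs hK (u - C l0) g hm hθ (by
      intro y hy hy0
      apply H y hy
      rw [map_sub, eval_C, sub_eq_zero] at hy0
      rw [hy0, ← dist_eq_norm]; exact hl0)
    obtain ⟨B, hB⟩ := hK.exists_bound_of_continuousOn (cont_eval hc h).continuousOn
    have hB1 : 0 < |B| + 1 := by positivity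
    refine ⟨Metric.ball l0 ((θ ^ n - s) / (|B| + 1)),
      mem_nhdsWithin_of_mem_nhds (Metric.ball_mem_nhds _ (div_pos (sub_pos.2 hs1) hB1)),
      n, |B|, abs_nonneg _, fun l hl => ⟨n, hn, le_rfl, h,
        fun y hy => (hB y hy).trans (le_abs_self _), fun y hy => ?_⟩⟩
    have e : eval (c y) (g ^ n - (u - C l) * h) =
        eval (c y) (g ^ n - (u - C l0) * h) + (l - l0) * eval (c y) h := by
      simp only [map_sub, map_mul, eval_C]; ring
    rw [e]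
    refine (norm_add_le _ _).trans ?_
    have h1 : ‖l - l0‖ ≤ (θ ^ n - s) / (|B| + 1) := by
      rw [← dist_eq_norm]; exact (Metric.mem_ball.1 hl).le
    have h2 : ‖(l - l0) * eval (c y) h‖ ≤ θ ^ n - s := by
      rw [norm_mul]
      calc _ ≤ (θ ^ n - s) / (|B| + 1) * (|B| + 1) :=
            mul_le_mul h1 (by linarith [hB y hy, le_abs_self B]) (norm_nonneg _)
              (div_pos (sub_pos.2 hs1) hB1).le
        _ = θ ^ n - s := by field_simp
    linarith [hs2 y hy]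

theorem pw (g v h : MvPolynomial σ ℂ) (n k : ℕ) : ∃ q : MvPolynomial σ ℂ,
    g ^ (n * k) - v * q = (g ^ n - v * h) ^ k ∧
    ∀ (z : σ → ℂ) (θ B : ℝ), 0 ≤ θ → ‖eval z g‖ ≤ θ → ‖eval z h‖ ≤ B →
      ‖eval z (g ^ n - v * h)‖ ≤ θ ^ n → ‖eval z q‖ ≤ B * (k * θ ^ (n * (k - 1))) := by
  refine ⟨h * ∑ j ∈ Finset.range k, (g ^ n) ^ j * (g ^ n - v * h) ^ (k - 1 - j), ?_, ?_⟩
  · have := geom_sum₂_mul (g ^ n) (g ^ n - v * h) k
    rw [pow_mul]
    linear_combination -this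
  · intro z θ B hθ hg hh hr
    rw [map_mul, norm_mul, map_sum]
    refine mul_le_mul hh ((norm_sum_le _ _).trans ?_) (norm_nonneg _)
      ((norm_nonneg _).trans hh)
    have : ∀ j ∈ Finset.range k,
        ‖eval z ((g ^ n) ^ j * (g ^ n - v * h) ^ (k - 1 - j))‖ ≤ θ ^ (n * (k - 1)) := by
      intro j hj
      have hj' := Finset.mem_range.1 hj
      rw [map_mul, map_pow, map_pow, map_pow (eval z) _ (k - 1 - j), norm_mul, norm_pow, norm_pow,
        norm_pow]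
      calc _ ≤ (θ ^ n) ^ j * (θ ^ n) ^ (k - 1 - j) := by gcongr
        _ = θ ^ (n * (k - 1)) := by
          rw [← pow_add, ← pow_mul]; congr 2; omega
    refine (Finset.sum_le_card_nsmul _ _ _ this).trans ?_
    simp

theorem pfrac {M : ℕ} (hM : 0 < M) {ω s : ℂ} (hω : IsPrimitiveRoot ω M) (hs : ‖s‖ < 1) :
    ∑ j ∈ Finset.range M, (1 - s * ω ^ j)⁻¹ = M * (1 - s ^ M)⁻¹ := by
  have hω1 : ‖ω‖ = 1 := hω.norm'_eq_one hM.ne'
  have h1 : 1 - s ^ M ≠ 0 := by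
    intro h
    have : ‖s ^ M‖ < 1 := by rw [norm_pow]; exact pow_lt_one₀ (norm_nonneg _) hs hM.ne'
    rw [← sub_eq_zero.1 h] at this; simp at this
  have h2 : ∀ j ∈ Finset.range M, (1 - s * ω ^ j)⁻¹ =
      (∑ l ∈ Finset.range M, s ^ l * (ω ^ l) ^ j) * (1 - s ^ M)⁻¹ := by
    intro j _
    have h3 : 1 - s * ω ^ j ≠ 0 := by
      intro h
      have : ‖s * ω ^ j‖ < 1 := by rw [norm_mul, norm_pow, hω1]; simpa using hs
      rw [← sub_eq_zero.1 h] at this; simp at this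
    have h4 := mul_neg_geom_sum (s * ω ^ j) M
    have h5 : (s * ω ^ j) ^ M = s ^ M := by
      rw [mul_pow, ← pow_mul, mul_comm j M, pow_mul, hω.pow_eq_one]; simp
    have h6 : ∑ l ∈ Finset.range M, s ^ l * (ω ^ l) ^ j =
        ∑ l ∈ Finset.range M, (s * ω ^ j) ^ l := by
      refine Finset.sum_congr rfl fun l _ => ?_
      rw [mul_pow, ← pow_mul, ← pow_mul, mul_comm l j]
    rw [h6]
    rw [h5] at h4
    field_simp
    linear_combination -h4
  rw [Finset.sum_congr rfl h2, ← Finset.sum_mul, Finset.sum_comm]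
  congr 1
  rw [Finset.sum_eq_single 0]
  · simp
  · intro l hl hl0
    have hl' := Finset.mem_range.1 hl
    rw [← Finset.mul_sum]
    have h7 : ω ^ l ≠ 1 := hω.pow_ne_one_of_pos_of_lt hl0 hl'
    have h8 := mul_neg_geom_sum (ω ^ l) M
    rw [← pow_mul, mul_comm l M, pow_mul, hω.pow_eq_one, one_pow, sub_self] at h8
    rw [(mul_eq_zero.1 h8).resolve_left (sub_ne_zero.2 h7.symm), mul_zero]
  · intro h; exact (h (Finset.mem_range.2 hM)).elim

theorem normalize {c : E → σ → ℂ} {K : Set E} {x : E} (hx : x ∉ Hull c K) :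
    ∃ (g : MvPolynomial σ ℂ) (m : ℝ), 0 ≤ m ∧ m < 1 ∧ eval (c x) g = 1 ∧
      ∀ y ∈ K, ‖eval (c y) g‖ ≤ m := by
  simp only [Hull, Set.mem_ofPred_eq, not_forall, not_le] at hx
  obtain ⟨p, M, hM, hx⟩ := hx
  by_cases h0 : 0 ≤ M
  · have hp : 0 < ‖eval (c x) p‖ := lt_of_le_of_lt h0 hx
    have hp' : eval (c x) p ≠ 0 := norm_pos_iff.1 hp
    refine ⟨C (eval (c x) p)⁻¹ * p, M / ‖eval (c x) p‖, div_nonneg h0 hp.le,
      (div_lt_one hp).2 hx, by rw [map_mul, eval_C, inv_mul_cancel₀ hp'], fun y hy => ?_⟩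
    rw [map_mul, eval_C, norm_mul, norm_inv, inv_mul_eq_div]
    exact div_le_div_of_nonneg_right (hM y hy) hp.le
  · exact ⟨1, 0, le_rfl, zero_lt_one, map_one _, fun y hy =>
      (h0 ((norm_nonneg _).trans (hM y hy))).elim⟩

theorem wermer [TopologicalSpace E] {c : E → σ → ℂ} (hc : Continuous c)
    (hs : Function.Surjective c) {K : Set E} (hK : IsCompact K) (u : MvPolynomial σ ℂ)
    {x : E} (hx : x ∈ Hull c K) {ρ r : ℝ} (hρ : 0 < ρ) (hr : ρ < r) :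
    x ∈ Hull c ((Hull c K ∩ {y | ‖eval (c y) u - eval (c x) u‖ = ρ}) ∪
      (K ∩ {y | ‖eval (c y) u - eval (c x) u‖ ≤ r})) := by
  by_contra hcon
  obtain ⟨g, m, hm0, hm1, hg1, hg⟩ := normalize hcon
  set a : ℂ := eval (c x) u with ha
  set θ : ℝ := (m + 1) / 2 with hθ
  have hθ0 : 0 < θ := by rw [hθ]; linarith
  have hθ1 : θ < 1 := by rw [hθ]; linarith
  have hmθ : m < θ := by rw [hθ]; linarith
  have hr0 : 0 < r := hρ.trans hr
  obtain ⟨N, B, hB, hU⟩ := unif hc hs hK u g a ρ hm0 hmθ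
    (fun y hy h => hg y (Or.inl ⟨hy, h⟩))
  obtain ⟨G, hG⟩ := hK.exists_bound_of_continuousOn (cont_eval hc g).continuousOn
  set q : ℝ := ρ / r with hq
  have hq0 : 0 < q := div_pos hρ hr0
  have hq1 : q < 1 := (div_lt_one hr0).2 hr
  have T1 : Tendsto (fun L : ℕ => θ ^ L + r * (B * (L * θ ^ L / θ ^ N))) atTop (𝓝 0) := by
    have h1 := tendsto_pow_atTop_nhds_zero_of_lt_one hθ0.le hθ1
    have h2 := tendsto_self_mul_const_pow_of_lt_one hθ0.le hθ1
    simpa using h1.add (((h2.div_const (θ ^ N)).const_mul B).const_mul r)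
  have T2 : Tendsto (fun L : ℕ => θ ^ L * (1 - q)⁻¹) atTop (𝓝 0) := by
    simpa using (tendsto_pow_atTop_nhds_zero_of_lt_one hθ0.le hθ1).mul_const (1 - q)⁻¹
  obtain ⟨L0, hL0⟩ := eventually_atTop.1 ((T1.eventually (gt_mem_nhds (show (0 : ℝ) < 1 / 2 by
    norm_num))).and (T2.eventually (gt_mem_nhds (show (0 : ℝ) < 1 / 4 by norm_num))))
  set L : ℕ := N.factorial * (L0 + N) with hL
  have hLge : L0 + N ≤ L := Nat.le_mul_of_pos_left _ (Nat.factorial_pos N)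
  obtain ⟨hL1, hL2⟩ := hL0 L (by omega)
  have T3 : Tendsto (fun M : ℕ => |G| ^ L * (q ^ M * (1 - q)⁻¹)) atTop (𝓝 0) := by
    simpa using ((tendsto_pow_atTop_nhds_zero_of_lt_one hq0.le hq1).mul_const
      (1 - q)⁻¹).const_mul (|G| ^ L)
  obtain ⟨M, hM1, hM⟩ := ((T3.eventually (gt_mem_nhds (show (0 : ℝ) < 1 / 4 by norm_num))).and
    (eventually_gt_atTop 0)).exists
  have hω := Complex.isPrimitiveRoot_exp M hM.ne'
  set ω : ℂ := Complex.exp (2 * Real.pi * Complex.I / M) with hωd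
  have hω1 : ‖ω‖ = 1 := hω.norm'_eq_one hM.ne'
  have key : ∀ j : ℕ, ∃ h : MvPolynomial σ ℂ,
      (∀ y ∈ K, ‖eval (c y) (g ^ L - (u - C (a + ρ * ω ^ j)) * h)‖ ≤ θ ^ L) ∧
      ∀ y ∈ K, ‖eval (c y) g‖ ≤ θ → ‖eval (c y) h‖ ≤ B * (L * θ ^ L / θ ^ N) := by
    intro j
    obtain ⟨n, hn1, hnN, h, hh1, hh2⟩ := hU (a + ρ * ω ^ j) (by
      simp [hω1, abs_of_pos hρ])
    obtain ⟨k, hk⟩ : n ∣ L := (Nat.dvd_factorial hn1 hnN).mul_right _
    obtain ⟨p, hp1, hp2⟩ := pw g (u - C (a + ρ * ω ^ j)) h n k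
    refine ⟨p, fun y hy => ?_, fun y hy hgy => ?_⟩
    · rw [hk, hp1, map_pow, norm_pow, pow_mul]
      exact pow_le_pow_left₀ (norm_nonneg _) (hh2 y hy) k
    · refine (hp2 _ θ B hθ0.le hgy (hh1 y hy) (hh2 y hy)).trans ?_
      have hkL : k ≤ L := hk ▸ Nat.le_mul_of_pos_left _ hn1
      have e : θ ^ (n * (k - 1)) ≤ θ ^ L / θ ^ N := by
        rw [le_div_iff₀ (pow_pos hθ0 N), ← pow_add]
        apply pow_le_pow_of_le_one hθ0.le hθ1.le
        rw [hk]
        rcases k with _ | k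
        · simp
        · rw [Nat.add_sub_cancel, Nat.mul_succ]; omega
      rw [mul_div_assoc]
      gcongr
  choose h hh1 hh2 using key
  set F : MvPolynomial σ ℂ :=
    g ^ L - (u - C a) * (C (M : ℂ)⁻¹ * ∑ j ∈ Finset.range M, h j) with hF
  have hMc : (M : ℂ) ≠ 0 := Nat.cast_ne_zero.2 hM.ne'
  have hMr : (0 : ℝ) < M := Nat.cast_pos.2 hM
  have hFx : eval (c x) F = 1 := by
    simp only [hF, map_sub, map_mul, map_pow, eval_C, hg1, ← ha]; simp
  have hFK : ∀ y ∈ K, ‖eval (c y) F‖ ≤ 1 / 2 := by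
    intro y hy
    set t : ℂ := eval (c y) u - a with ht
    have eF : eval (c y) F = eval (c y) g ^ L -
        t * ((M : ℂ)⁻¹ * ∑ j ∈ Finset.range M, eval (c y) (h j)) := by
      simp only [hF, map_sub, map_mul, map_pow, eval_C, map_sum, ht]
    rw [eF]
    by_cases hy1 : ‖t‖ ≤ r
    · have hgy : ‖eval (c y) g‖ ≤ θ := (hg y (Or.inr ⟨hy, hy1⟩)).trans hmθ.le
      have s1 : ‖∑ j ∈ Finset.range M, eval (c y) (h j)‖ ≤ M * (B * (L * θ ^ L / θ ^ N)) := by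
        refine (norm_sum_le _ _).trans ?_
        refine (Finset.sum_le_card_nsmul _ _ _ fun j _ => hh2 j y hy hgy).trans ?_
        simp
      have s2 : ‖(M : ℂ)⁻¹ * ∑ j ∈ Finset.range M, eval (c y) (h j)‖ ≤
          B * (L * θ ^ L / θ ^ N) := by
        rw [norm_mul, norm_inv, Complex.norm_natCast, inv_mul_le_iff₀ hMr]; exact s1
      refine (norm_sub_le _ _).trans ?_
      rw [norm_mul t, norm_pow]
      have s3 : ‖eval (c y) g‖ ^ L ≤ θ ^ L := pow_le_pow_left₀ (norm_nonneg _) hgy L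
      have s4 := mul_le_mul hy1 s2 (norm_nonneg _) hr0.le
      linarith
    · push Not at hy1
      have ht0 : t ≠ 0 := norm_pos_iff.1 (hr0.trans hy1)
      set s : ℂ := ρ / t with hsd
      have hs1 : ‖s‖ ≤ q := by
        rw [hsd, norm_div, Complex.norm_real, Real.norm_eq_abs, abs_of_pos hρ, hq]
        exact div_le_div_of_nonneg_left hρ.le hr0 hy1.le
      have hden : ∀ w : ℂ, ‖w‖ ≤ q → 1 - w ≠ 0 ∧ ‖(1 - w)⁻¹‖ ≤ (1 - q)⁻¹ := by
        intro w hw
        have : 1 - q ≤ ‖1 - w‖ := by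
          have := norm_sub_norm_le (1 : ℂ) w
          rw [norm_one] at this; linarith
        refine ⟨norm_pos_iff.1 (by linarith), ?_⟩
        rw [norm_inv]; exact inv_anti₀ (by linarith) this
      have hsj : ∀ j : ℕ, ‖s * ω ^ j‖ ≤ q := fun j => by
        rw [norm_mul, norm_pow, hω1]; simpa using hs1
      have hsM : ‖s ^ M‖ ≤ q ^ M := by
        rw [norm_pow]; exact pow_le_pow_left₀ (norm_nonneg _) hs1 M
      have hsM' : ‖s ^ M‖ ≤ q := hsM.trans (pow_le_of_le_one hq0.le hq1.le hM.ne')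
      set R : ℕ → ℂ := fun j => eval (c y) (g ^ L - (u - C (a + ρ * ω ^ j)) * h j) with hR
      have e1 : ∀ j ∈ Finset.range M, t * eval (c y) (h j) =
          eval (c y) g ^ L * (1 - s * ω ^ j)⁻¹ - R j * (1 - s * ω ^ j)⁻¹ := by
        intro j _
        have h3 := (hden _ (hsj j)).1
        have h4 : R j = eval (c y) g ^ L - t * (1 - s * ω ^ j) * eval (c y) (h j) := by
          simp only [hR, map_sub, map_mul, map_pow, eval_C, map_add, hsd]
          have : eval (c y) u = t + a := by rw [ht]; ring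
          rw [this]; field_simp; ring
        rw [h4]; field_simp; ring
      have e2 : eval (c y) g ^ L - t * ((M : ℂ)⁻¹ * ∑ j ∈ Finset.range M, eval (c y) (h j)) =
          -(eval (c y) g ^ L * (s ^ M * (1 - s ^ M)⁻¹)) +
            (M : ℂ)⁻¹ * ∑ j ∈ Finset.range M, R j * (1 - s * ω ^ j)⁻¹ := by
        have h3 := (hden _ hsM').1
        rw [mul_left_comm, Finset.mul_sum, Finset.sum_congr rfl e1, Finset.sum_sub_distrib,
          ← Finset.mul_sum, pfrac hM hω (hs1.trans_lt hq1)]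
        field_simp; ring
      rw [e2]
      refine (norm_add_le _ _).trans ?_
      have hq' : 0 ≤ (1 - q)⁻¹ := inv_nonneg.2 (by linarith)
      have s1 : ‖-(eval (c y) g ^ L * (s ^ M * (1 - s ^ M)⁻¹))‖ ≤
          |G| ^ L * (q ^ M * (1 - q)⁻¹) := by
        rw [norm_neg, norm_mul, norm_mul, norm_pow]
        have := (hG y hy).trans (le_abs_self G)
        have h5 := (hden _ hsM').2
        gcongr
      have s2 : ‖(M : ℂ)⁻¹ * ∑ j ∈ Finset.range M, R j * (1 - s * ω ^ j)⁻¹‖ ≤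
          θ ^ L * (1 - q)⁻¹ := by
        rw [norm_mul, norm_inv, Complex.norm_natCast, inv_mul_le_iff₀ hMr]
        refine (norm_sum_le _ _).trans ?_
        refine (Finset.sum_le_card_nsmul _ _ (θ ^ L * (1 - q)⁻¹) fun j _ => ?_).trans (by simp)
        rw [norm_mul]
        exact mul_le_mul (hh1 j y hy) (hden _ (hsj j)).2 (norm_nonneg _) (by positivity)
      linarith
  have := hx F _ hFK
  rw [hFx, norm_one] at this
  linarith

end Pool.Agent.HULL
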