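import Pool.Agent.Lib.HULL.Qb

open Filter Topology

namespace Pool.Agent.HULL.Z59

variable {E σ : Type*} [Fintype σ] [NormedAddCommGroup E] [NormedSpace ℂ E]

theorem vert {g : ℝ → ℂ} {e κ ι ι' lev : ℝ} {v0 : ℂ} (hκ : 0 < κ) (hκ1 : κ ≤ 1 / 8)
    (hι0 : 0 < ι) (hι : ι ≤ 1 / 4) (hlev : lev ≤ (1 - 3 * κ) ^ 2 * ‖v0 * (v0 - e)‖)
    (h0 : |v0.im| ≤ κ * sm e v0 / 16)
    (hb : ∀ a b s, -(2 * ι') ≤ a → a ≤ b → b ≤ 2 * ι' →
      (∀ u ∈ Set.Icc a b, lev ≤ ‖g u * (g u - e)‖ ∧ s ≤ sm e (g u)) →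
      s * (b - a) ≤ ι' * (g b - g a).re)
    (hc : ∀ a b, -(2 * ι') ≤ a → a ≤ b → b ≤ 2 * ι' → |(g b - g a).im| ≤ ι * (g b - g a).re)
    {a b : ℝ} (ha : -(2 * ι') ≤ a) (hab : a ≤ b) (hb2 : b ≤ 2 * ι')
    (h1 : v0.re - κ * sm e v0 ≤ (g a).re) (h2 : (g b).re ≤ v0.re + κ * sm e v0)
    (h3 : |(g a).im| ≤ κ * sm e v0 ∨ |(g b).im| ≤ κ * sm e v0) :
    (∀ u ∈ Set.Icc a b, ‖g u - v0‖ ≤ 3 * κ * sm e v0) ∧
      sm e v0 / 2 * (b - a) ≤ ι' * (g b - g a).re := by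
  set s := sm e v0 with hs
  have hs0 : 0 ≤ s := sm_nonneg e v0
  have hks : 0 ≤ κ * s := by positivity
  have key : ∀ u ∈ Set.Icc a b, ‖g u - v0‖ ≤ 3 * κ * s := by
    intro u hu
    have c1 := hc a u ha hu.1 (hu.2.trans hb2)
    have c2 := hc u b (ha.trans hu.1) hu.2 hb2
    rw [Complex.sub_re, Complex.sub_im] at c1 c2
    have d1 : 0 ≤ (g u).re - (g a).re := by
      by_contra hh; nlinarith [abs_nonneg ((g u).im - (g a).im)]
    have d2 : 0 ≤ (g b).re - (g u).re := by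
      by_contra hh; nlinarith [abs_nonneg ((g b).im - (g u).im)]
    have d3 : ι * ((g u).re - (g a).re) ≤ 1 / 4 * (2 * (κ * s)) :=
      mul_le_mul hι (by linarith) d1 (by norm_num)
    have d4 : ι * ((g b).re - (g u).re) ≤ 1 / 4 * (2 * (κ * s)) :=
      mul_le_mul hι (by linarith) d2 (by norm_num)
    have d5 := Complex.norm_le_abs_re_add_abs_im (g u - v0)
    rw [Complex.sub_re, Complex.sub_im] at d5
    have d6 : |(g u).re - v0.re| ≤ κ * s := abs_le.2 ⟨by linarith, by linarith⟩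
    have d7 : |(g u).im - v0.im| ≤ 2 * (κ * s) := by
      have e1 := abs_le.1 (c1.trans d3)
      have e2 := abs_le.1 (c2.trans d4)
      have e3 := abs_le.1 h0
      rcases h3 with h | h <;> have e4 := abs_le.1 h <;> exact abs_le.2 ⟨by linarith, by linarith⟩
    linarith
  refine ⟨key, hb a b _ ha hab hb2 fun u hu => ⟨?_, ?_⟩⟩
  · exact hlev.trans (pp_lower (by linarith) (key u hu))
  · have := sm_le e v0 (g u)
    rw [norm_sub_rev] at this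
    nlinarith [key u hu]

theorem cone {A D R I Y : ℝ} (hR : 0 ≤ R) (hI : 0 ≤ I) (hY : 0 ≤ Y)
    (h1 : R ≤ D + A / 2) (h2 : I ≤ R / 4 + A / 4) (h3 : Y ≤ R / 4) :
    Y ^ 2 + I ^ 2 - A ^ 2 - D ^ 2 ≤ 0 := by
  have a : Y ^ 2 ≤ (R / 4) ^ 2 := pow_le_pow_left₀ hY h3 2
  have b : I ^ 2 ≤ (R / 4 + A / 4) ^ 2 := pow_le_pow_left₀ hI h2 2
  have c : R ^ 2 ≤ (D + A / 2) ^ 2 := pow_le_pow_left₀ hR h1 2
  nlinarith [sq_nonneg (R - A), sq_nonneg (D - A / 2), sq_nonneg A, sq_nonneg D]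

theorem sq_zero {a b : ℝ} (h : a ^ 2 + b ^ 2 - 0 ^ 2 - 0 ^ 2 ≤ 0) : a = 0 ∧ b = 0 :=
  ⟨by nlinarith [sq_nonneg a, sq_nonneg b], by nlinarith [sq_nonneg a, sq_nonneg b]⟩

theorem sq_neg {a b : ℝ} : ¬ a ^ 2 + b ^ 2 - 0 ^ 2 - 0 ^ 2 ≤ -1 / 2 := fun h => by
  nlinarith [sq_nonneg a, sq_nonneg b]

theorem norm_div_le_one {w : ℂ} {r : ℝ} (hr : 0 < r) : ‖w / (r : ℂ)‖ ≤ 1 ↔ ‖w‖ ≤ r := by
  rw [norm_div, Complex.norm_real, Real.norm_eq_abs, abs_of_pos hr, div_le_one hr]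

theorem abs_im_div {w : ℂ} {r : ℝ} (hr : 0 < r) : |(w / (r : ℂ)).im| = |w.im| / r := by
  rw [Complex.div_ofReal_im, abs_div, abs_of_pos hr]

theorem abs_re_div {w : ℂ} {r : ℝ} (hr : 0 < r) : |(w / (r : ℂ)).re| = |w.re| / r := by
  rw [Complex.div_ofReal_re, abs_div, abs_of_pos hr]

theorem zp_two (c : E ≃L[ℂ] (σ → ℂ)) {Z K : Set E} (hZ : IsCompact Z) {ζ v : E → ℂ}
    (hζ : ∀ y ∈ Z, AnalyticAt ℂ ζ y) (hv : ∀ y ∈ Z, AnalyticAt ℂ v y)
    {e κ ρ t ι ι' C0 lev : ℝ} {y0 : E} (hy0 : y0 ∈ Z) {Ψ : ℝ → ℝ → ℂ}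
    (hs : 0 < sm e (v y0)) (hκ : 0 < κ) (hκ1 : κ ≤ 1 / 8) (hι0 : 0 < ι) (hι : ι ≤ κ / 64)
    (hι' : 0 < ι') (ht : t + 2 * ι' ≤ ρ / 8) (hC0 : 0 ≤ C0) (hC : C0 * ρ ≤ κ / 4)
    (hρ1 : ι * ρ ≤ κ / 8) (hlev : lev ≤ (1 - 3 * κ) ^ 2 * ‖v y0 * (v y0 - e)‖)
    (h0 : |(ζ y0).im| ≤ t)
    (H : ∀ y ∈ Z, ‖ζ y - (ζ y0).re‖ ≤ ρ → ‖v y - v y0‖ ≤ κ * sm e (v y0) →
      |(ζ y).im| ≤ t ∧ |(v y).im| ≤ κ * sm e (v y0) / 16 ∧ (y ∉ K → NoPeak Z y) ∧
        (y ∈ K → |(ζ y).im| ≤ ι' ∧ v y = Ψ (ζ y).re (ζ y).im))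
    (hcont : ContinuousOn (Ψ (ζ y0).re) (Set.Icc (-(2 * ι')) (2 * ι')))
    (hb : ∀ a b s, -(2 * ι') ≤ a → a ≤ b → b ≤ 2 * ι' →
      (∀ u ∈ Set.Icc a b, lev ≤ ‖Ψ (ζ y0).re u * (Ψ (ζ y0).re u - e)‖ ∧
        s ≤ sm e (Ψ (ζ y0).re u)) →
      s * (b - a) ≤ ι' * (Ψ (ζ y0).re b - Ψ (ζ y0).re a).re)
    (hc : ∀ a b, -(2 * ι') ≤ a → a ≤ b → b ≤ 2 * ι' →
      |(Ψ (ζ y0).re b - Ψ (ζ y0).re a).im| ≤ ι * (Ψ (ζ y0).re b - Ψ (ζ y0).re a).re)
    (hd : ∀ x u, |x - (ζ y0).re| ≤ ρ → |u| ≤ ι' → lev ≤ ‖Ψ x u * (Ψ x u - e)‖ →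
      ‖Ψ (ζ y0).re u - Ψ x u‖ ≤ C0 * |x - (ζ y0).re| * sm e (Ψ x u) ∧
      |(Ψ (ζ y0).re u - Ψ x u).im| ≤ ι * |x - (ζ y0).re| * sm e (Ψ x u))
    (he : ∀ u, |u| ≤ 2 * ι' → lev ≤ ‖Ψ (ζ y0).re u * (Ψ (ζ y0).re u - e)‖ →
      |(Ψ (ζ y0).re u).im| ≤ ι * sm e (Ψ (ζ y0).re u))
    (hf : |(ζ y0).im| ≤ 2 * ι' → v y0 = Ψ (ζ y0).re (ζ y0).im → y0 ∈ K) : y0 ∈ K := by
  by_contra hy0K
  set x0 := (ζ y0).re with hx0
  set v0 := v y0 with hv0
  set s := sm e v0 with hsd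
  set g := Ψ x0 with hg
  have ht0 : 0 ≤ t := (abs_nonneg _).trans h0
  have hρ : 0 < ρ := by linarith
  have hks : 0 < κ * s := mul_pos hκ hs
  have hδ : 0 < κ * s / 2 := by positivity
  have n1 : ‖ζ y0 - x0‖ = |(ζ y0).im| := by
    rw [← Complex.abs_im_eq_norm.2 (by simp [hx0])]; simp
  have i0 : |v0.im| ≤ κ * s / 16 := (H y0 hy0 (by rw [n1]; linarith) (by simp [hv0, hks.le])).2.1
  have n2 : ‖((v0.re : ℝ) : ℂ) - v0‖ = |v0.im| := by
    rw [← Complex.abs_im_eq_norm.2 (by simp)]; simp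
  have near : ∀ w : ℂ, ‖w - v0‖ ≤ 3 * κ * s → lev ≤ ‖w * (w - e)‖ ∧ sm e w ≤ 2 * s := by
    intro w hw
    have a0 := mul_le_mul_of_nonneg_right hκ1 hs.le
    have b := sm_le e w v0
    exact ⟨hlev.trans (pp_lower (by linarith) hw), by linarith⟩
  have hor : ∀ y ∈ Z, y ∈ K → ‖ζ y - x0‖ ≤ ρ → ‖v y - v0‖ ≤ κ * s → |(ζ y).im| ≤ ι' ∧
      ‖g (ζ y).im - v y‖ ≤ C0 * |(ζ y).re - x0| * (2 * s) ∧
      |(g (ζ y).im - v y).im| ≤ ι * |(ζ y).re - x0| * (2 * s) := by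
    intro y hy hyK a1 a2
    obtain ⟨b1, b2⟩ := (H y hy a1 a2).2.2.2 hyK
    obtain ⟨b3, b4⟩ := near (v y) (by linarith)
    have b5 : |(ζ y).re - x0| ≤ ρ := by
      have := Complex.abs_re_le_norm (ζ y - x0)
      simp only [Complex.sub_re, Complex.ofReal_re] at this; linarith
    obtain ⟨b6, b7⟩ := hd _ _ b5 b1 (by rw [← b2]; exact b3)
    rw [← b2] at b6 b7
    exact ⟨b1, b6.trans (by gcongr), b7.trans (by gcongr)⟩
  have hι4 : ι ≤ 1 / 4 := by linarith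
  have V := fun a b => @vert g e κ ι ι' lev v0 hκ hκ1 hι0 hι4 hlev i0 hb hc a b
  by_cases hw : ∃ y ∈ Z, y ∈ K ∧ ‖ζ y - x0‖ ≤ ρ ∧ ‖v y - v0.re‖ ≤ κ * s / 2
  swap
  · push Not at hw
    have tri : ∀ y, ‖v y - v0.re‖ ≤ κ * s / 2 → ‖v y - v0‖ ≤ κ * s := by
      intro y h
      have := norm_add_le (v y - v0.re) (v0.re - v0)
      rw [sub_add_sub_cancel] at this; linarith
    have := qb c (K := K) hZ (ξ := fun y => (ζ y - x0) / (ρ : ℂ))
      (η := fun y => (v y - v0.re) / ((κ * s / 2 : ℝ) : ℂ))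
      (fun y hy => ((hζ y hy).sub analyticAt_const).div_const)
      (fun y hy => ((hv y hy).sub analyticAt_const).div_const) le_rfl
      (fun y hy a b => by
        rw [norm_div_le_one hρ] at a
        rw [norm_div_le_one hδ] at b
        obtain ⟨b1, b2, -⟩ := H y hy a (tri y b)
        rw [abs_im_div hρ, abs_im_div hδ, div_le_iff₀ hρ, div_le_iff₀ hδ]
        simp only [Complex.sub_im, Complex.ofReal_im, sub_zero]
        constructor <;> linarith)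
      (fun y hy a b h => by
        rw [norm_div_le_one hρ] at a
        rw [norm_div_le_one hδ] at b
        exact absurd b (not_le.2 (hw y hy h a)))
      (fun y hy a b h => by
        rw [norm_div_le_one hρ] at a
        rw [norm_div_le_one hδ] at b
        exact (H y hy a (tri y b)).2.2.1 h) y0 hy0
      (by rw [norm_div_le_one hρ, n1]; linarith)
      (by rw [norm_div_le_one hδ, norm_sub_rev, n2]; linarith)
    have r1 : ((ζ y0 - x0) / (ρ : ℂ)).re = 0 := by rw [Complex.div_ofReal_re]; simp [hx0]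
    have r2 : ((v y0 - v0.re) / ((κ * s / 2 : ℝ) : ℂ)).re = 0 := by
      rw [Complex.div_ofReal_re]; simp [hv0]
    simp only [r1, r2] at this
    exact sq_neg this
  obtain ⟨yw, w1, w2, w3, w4⟩ := hw
  obtain ⟨w5, w6, -⟩ := hor yw w1 w2 w3 (by
    have := norm_add_le (v yw - v0.re) (v0.re - v0)
    rw [sub_add_sub_cancel] at this; linarith)
  set tw := (ζ yw).im with htw
  have w7 : ‖g tw - v0.re‖ ≤ κ * s := by
    have a1 : |(ζ yw).re - x0| ≤ ρ := by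
      have := Complex.abs_re_le_norm (ζ yw - x0)
      simp only [Complex.sub_re, Complex.ofReal_re] at this; linarith
    have a2 : C0 * |(ζ yw).re - x0| ≤ κ / 4 := (mul_le_mul_of_nonneg_left a1 hC0).trans hC
    have a3 := mul_le_mul_of_nonneg_right a2 (show 0 ≤ 2 * s by positivity)
    have := norm_add_le (g tw - v yw) (v yw - v0.re)
    rw [sub_add_sub_cancel] at this; linarith
  have w8 : |(g tw).re - v0.re| ≤ κ * s := by
    have := Complex.abs_re_le_norm (g tw - v0.re)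
    simp only [Complex.sub_re, Complex.ofReal_re] at this; linarith
  have w9 : |(g tw).im| ≤ κ * s := by
    have := Complex.abs_im_le_norm (g tw - v0.re)
    simp only [Complex.sub_im, Complex.ofReal_im, sub_zero] at this; linarith
  obtain ⟨w8a, w8b⟩ := abs_le.1 w8
  obtain ⟨w5a, w5b⟩ := abs_le.1 w5
  have hcr : ContinuousOn (fun u => (g u).re) (Set.Icc (-(2 * ι')) (2 * ι')) :=
    Complex.continuous_re.comp_continuousOn hcont
  have hκs : ι' * (κ * s) < s / 2 * ι' := by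
    linarith [mul_le_mul_of_nonneg_right hκ1 (mul_pos hι' hs).le, mul_pos hι' hs]
  obtain ⟨u0, u1, u2, u3⟩ : ∃ u0, |u0| ≤ 2 * ι' ∧ (g u0).re = v0.re ∧ ‖g u0 - v0‖ ≤ 3 * κ * s := by
    rcases le_total (g tw).re v0.re with h | h
    · have a1 : v0.re ≤ (g (tw + ι')).re := by
        by_contra hh
        have := (V tw (tw + ι') (by linarith) (by linarith) (by linarith) (by linarith)
          (by linarith) (Or.inl w9)).2
        rw [Complex.sub_re, add_sub_cancel_left] at this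
        have a2 : ι' * ((g (tw + ι')).re - (g tw).re) ≤ ι' * (κ * s) :=
          mul_le_mul_of_nonneg_left (by linarith) hι'.le
        linarith
      obtain ⟨u0, hu0, hu⟩ := intermediate_value_Icc (show tw ≤ tw + ι' by linarith)
        (hcr.mono (Set.Icc_subset_Icc (by linarith) (by linarith))) ⟨h, a1⟩
      have hu' : (g u0).re = v0.re := hu
      exact ⟨u0, abs_le.2 ⟨by linarith [hu0.1], by linarith [hu0.2]⟩, hu',
        (V tw u0 (by linarith) hu0.1 (by linarith [hu0.2]) (by linarith) (by linarith)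
          (Or.inl w9)).1 u0 ⟨hu0.1, le_rfl⟩⟩
    · have a1 : (g (tw - ι')).re ≤ v0.re := by
        by_contra hh
        have := (V (tw - ι') tw (by linarith) (by linarith) (by linarith) (by linarith)
          (by linarith) (Or.inr w9)).2
        rw [Complex.sub_re, sub_sub_cancel] at this
        have a2 : ι' * ((g tw).re - (g (tw - ι')).re) ≤ ι' * (κ * s) :=
          mul_le_mul_of_nonneg_left (by linarith) hι'.le
        linarith
      obtain ⟨u0, hu0, hu⟩ := intermediate_value_Icc (show tw - ι' ≤ tw by linarith)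
        (hcr.mono (Set.Icc_subset_Icc (by linarith) (by linarith))) ⟨a1, h⟩
      have hu' : (g u0).re = v0.re := hu
      exact ⟨u0, abs_le.2 ⟨by linarith [hu0.1], by linarith [hu0.2]⟩, hu',
        (V u0 tw (by linarith [hu0.1]) hu0.2 (by linarith) (by linarith) (by linarith)
          (Or.inr w9)).1 u0 ⟨le_rfl, hu0.2⟩⟩
  obtain ⟨u4, u5⟩ := near _ u3
  have u6 : |(g u0).im| ≤ κ * s / 32 := by
    have a := he u0 u1 u4
    have b : ι * sm e (g u0) ≤ κ / 64 * (2 * s) :=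
      mul_le_mul hι u5 (sm_nonneg _ _) (by positivity)
    linarith
  obtain ⟨u1a, u1b⟩ := abs_le.1 u1
  have u7 : ‖g u0 - v0‖ ≤ κ * s / 2 := by
    rw [← Complex.abs_im_eq_norm.2 (by simp [u2]), Complex.sub_im]
    linarith [abs_sub (g u0).im v0.im]
  set z0 : ℂ := x0 + u0 * Complex.I with hz0
  have hρ2 : 0 < ρ / 2 := by positivity
  have tri : ∀ y, ‖(ζ y - z0) / ((ρ / 2 : ℝ) : ℂ)‖ ≤ 1 →
      ‖(v y - g u0) / ((κ * s / 2 : ℝ) : ℂ)‖ ≤ 1 → ‖ζ y - x0‖ ≤ ρ ∧ ‖v y - v0‖ ≤ κ * s := by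
    intro y a b
    rw [norm_div_le_one hρ2] at a
    rw [norm_div_le_one hδ] at b
    have a1 := norm_add_le (ζ y - z0) (z0 - x0)
    have a2 := norm_add_le (v y - g u0) (g u0 - v0)
    rw [sub_add_sub_cancel] at a1 a2
    have a3 : ‖z0 - x0‖ = |u0| := by simp [hz0]
    constructor <;> linarith
  have zre : ∀ y, (ζ y - z0).re = (ζ y).re - x0 := fun y => by simp [hz0]
  have zim : ∀ y, (ζ y - z0).im = (ζ y).im - u0 := fun y => by simp [hz0]
  have := qb c (K := K) hZ (ξ := fun y => (ζ y - z0) / ((ρ / 2 : ℝ) : ℂ))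
    (η := fun y => (v y - g u0) / ((κ * s / 2 : ℝ) : ℂ))
    (fun y hy => ((hζ y hy).sub analyticAt_const).div_const)
    (fun y hy => ((hv y hy).sub analyticAt_const).div_const) (b := 0) (by norm_num)
    (fun y hy a b => by
      obtain ⟨a1, a2⟩ := tri y a b
      obtain ⟨b1, b2, -⟩ := H y hy a1 a2
      rw [abs_im_div hρ2, abs_im_div hδ, div_le_iff₀ hρ2, div_le_iff₀ hδ, zim, Complex.sub_im]
      constructor
      · linarith [abs_sub (ζ y).im u0]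
      · linarith [abs_sub (v y).im (g u0).im])
    (fun y hy a b h => by
      obtain ⟨a1, a2⟩ := tri y a b
      obtain ⟨b1, b2, b3⟩ := hor y hy h a1 a2
      rw [norm_div_le_one hρ2] at a
      rw [norm_div_le_one hδ] at b
      set u := (ζ y).im with hu
      set dx := |(ζ y).re - x0| with hdx
      have hdx0 : 0 ≤ dx := abs_nonneg _
      have c0 : dx ≤ ρ / 2 := by
        have := Complex.abs_re_le_norm (ζ y - z0)
        rw [zre] at this; linarith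
      have c1 : |(g u).re - (v y).re| ≤ C0 * dx * (2 * s) :=
        (Complex.abs_re_le_norm (g u - v y)).trans b2
      have c2 : |(v y).re - v0.re| ≤ κ * s / 2 := by
        have := Complex.abs_re_le_norm (v y - g u0)
        rw [Complex.sub_re, u2] at this; linarith
      have c3 : C0 * dx * (2 * s) ≤ κ * s / 4 := by
        have e1 : C0 * dx ≤ κ / 8 := by linarith [mul_le_mul_of_nonneg_left c0 hC0]
        linarith [mul_le_mul_of_nonneg_right e1 hs.le]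
      obtain ⟨c1a, c1b⟩ := abs_le.1 (c1.trans c3)
      obtain ⟨c2a, c2b⟩ := abs_le.1 c2
      obtain ⟨b1a, b1b⟩ := abs_le.1 b1
      have c4 : s / 2 * |u - u0| ≤ ι' * |(g u).re - (g u0).re| ∧
          |(g u).im - (g u0).im| ≤ ι * |(g u).re - (g u0).re| := by
        rcases le_total u u0 with hh | hh
        · have d1 := (V u u0 (by linarith) hh u1b (by linarith) (by linarith)
            (Or.inr (by linarith))).2
          have d2 := hc u u0 (by linarith) hh u1b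
          rw [Complex.sub_re] at d1 d2
          rw [Complex.sub_im] at d2
          rw [abs_sub_comm u, abs_of_nonneg (sub_nonneg.2 hh), abs_sub_comm (g u).re,
            abs_sub_comm (g u).im]
          exact ⟨d1.trans (mul_le_mul_of_nonneg_left (le_abs_self _) hι'.le),
            d2.trans (mul_le_mul_of_nonneg_left (le_abs_self _) hι0.le)⟩
        · have d1 := (V u0 u u1a hh (by linarith) (by linarith) (by linarith)
            (Or.inl (by linarith))).2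
          have d2 := hc u0 u u1a hh (by linarith)
          rw [Complex.sub_re] at d1 d2
          rw [Complex.sub_im] at d2
          rw [abs_of_nonneg (sub_nonneg.2 hh)]
          exact ⟨d1.trans (mul_le_mul_of_nonneg_left (le_abs_self _) hι'.le),
            d2.trans (mul_le_mul_of_nonneg_left (le_abs_self _) hι0.le)⟩
      obtain ⟨c5, c6⟩ := c4
      set R := |(g u).re - (g u0).re| with hR
      have hR0 : 0 ≤ R := abs_nonneg _
      rw [← sq_abs (Complex.im _), ← sq_abs (Complex.im (_ / ((κ * s / 2 : ℝ) : ℂ))),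
        ← sq_abs (Complex.re _), ← sq_abs (Complex.re (_ / ((κ * s / 2 : ℝ) : ℂ))),
        abs_im_div hρ2, abs_im_div hδ, abs_re_div hρ2, abs_re_div hδ, zre, zim,
        Complex.sub_im, Complex.sub_re]
      have f1 : dx / (ρ / 2) * (ρ / 2) = dx := by field_simp
      set A := dx / (ρ / 2) with hA
      have hA0 : 0 ≤ A := by positivity
      refine cone (R := R / (κ * s / 2)) (by positivity) (by positivity) (by positivity) ?_ ?_ ?_
      · rw [div_add' _ _ _ hδ.ne', div_le_div_iff_of_pos_right hδ]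
        have g1 := abs_sub_le (g u).re (v y).re (g u0).re
        have g2 : C0 * dx * (2 * s) ≤ A / 2 * (κ * s / 2) := by
          rw [← f1]
          have : C0 * ρ * (A * s) ≤ κ / 4 * (A * s) :=
            mul_le_mul_of_nonneg_right hC (by positivity)
          linarith
        linarith
      · rw [div_le_iff₀ hδ]
        have g0 : (R / (κ * s / 2) / 4 + A / 4) * (κ * s / 2) = R / 4 + A / 4 * (κ * s / 2) := by
          field_simp
        have g1 := abs_sub_le (v y).im (g u).im (g u0).im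
        rw [Complex.sub_im, abs_sub_comm] at b3
        have g2 : ι * dx * (2 * s) ≤ A / 4 * (κ * s / 2) := by
          rw [← f1]
          have : ι * ρ * (A * s) ≤ κ / 8 * (A * s) :=
            mul_le_mul_of_nonneg_right hρ1 (by positivity)
          linarith
        have g3 : ι * R ≤ 1 / 4 * R := mul_le_mul_of_nonneg_right hι4 hR0
        rw [g0]; linarith
      · rw [div_le_iff₀ hρ2]
        have g0 : R / (κ * s / 2) / 4 * (ρ / 2) = R * ρ / (4 * (κ * s)) := by field_simp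
        rw [g0, le_div_iff₀ (by positivity)]
        have g1 : κ * (s / 2 * |u - u0|) ≤ κ * (ι' * R) := mul_le_mul_of_nonneg_left c5 hκ.le
        have g2 : κ * ι' ≤ 1 / 8 * (ρ / 16) := mul_le_mul hκ1 (by linarith) hι'.le (by norm_num)
        have g3 := mul_le_mul_of_nonneg_right g2 hR0
        linarith [mul_nonneg hR0 hρ.le])
    (fun y hy a b h => (H y hy (tri y a b).1 (tri y a b).2).2.2.1 h) y0 hy0
    (by rw [norm_div_le_one hρ2, ← Complex.abs_im_eq_norm.2 (by rw [zre]; simp [hx0]), zim]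
        linarith [abs_sub (ζ y0).im u0])
    (by rw [norm_div_le_one hδ, norm_sub_rev]; exact u7)
  have r1 : ((ζ y0 - z0) / ((ρ / 2 : ℝ) : ℂ)).re = 0 := by
    rw [Complex.div_ofReal_re, zre]; simp [hx0]
  have r2 : ((v y0 - g u0) / ((κ * s / 2 : ℝ) : ℂ)).re = 0 := by
    rw [Complex.div_ofReal_re, Complex.sub_re, u2]; simp [hv0]
  simp only [r1, r2] at this
  obtain ⟨r3, r4⟩ := sq_zero this
  rw [Complex.div_ofReal_im, zim, div_eq_zero_iff, sub_eq_zero] at r3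
  rw [Complex.div_ofReal_im, Complex.sub_im, div_eq_zero_iff, sub_eq_zero] at r4
  have r5 := r3.resolve_right hρ2.ne'
  have r6 := r4.resolve_right hδ.ne'
  refine hy0K (hf (by rw [r5]; exact u1) ?_)
  rw [r5]
  exact Complex.ext u2.symm r6

structure PW (Ψ : ℝ → ℝ → ℂ) (I : Set ℝ) (e ι ι' C0 lev : ℝ) : Prop where
  pos : 0 < ι'
  le : ι' ≤ ι
  cont : ∀ x ∈ I, ContinuousOn (Ψ x) (Set.Icc (-(2 * ι')) (2 * ι'))
  grow : ∀ x ∈ I, ∀ a b s, -(2 * ι') ≤ a → a ≤ b → b ≤ 2 * ι' →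
    (∀ u ∈ Set.Icc a b, lev ≤ ‖Ψ x u * (Ψ x u - e)‖ ∧ s ≤ sm e (Ψ x u)) →
    s * (b - a) ≤ ι' * (Ψ x b - Ψ x a).re
  cone : ∀ x ∈ I, ∀ a b, -(2 * ι') ≤ a → a ≤ b → b ≤ 2 * ι' →
    |(Ψ x b - Ψ x a).im| ≤ ι * (Ψ x b - Ψ x a).re
  hor : ∀ x ∈ I, ∀ x' ∈ I, ∀ u, |u| ≤ 2 * ι' → lev ≤ ‖Ψ x u * (Ψ x u - e)‖ →
    ‖Ψ x' u - Ψ x u‖ ≤ C0 * |x - x'| * sm e (Ψ x u) ∧
      |(Ψ x' u - Ψ x u).im| ≤ ι * |x - x'| * sm e (Ψ x u)
  real : ∀ x ∈ I, ∀ u, |u| ≤ 2 * ι' → lev ≤ ‖Ψ x u * (Ψ x u - e)‖ →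
    |(Ψ x u).im| ≤ ι * sm e (Ψ x u)

theorem PW.of_deriv {Ψ D : ℝ → ℝ → ℂ} {I : Set ℝ} {e ι ι' C0 lev : ℝ} (h0 : 0 < ι')
    (h1 : ι' ≤ ι) (hc : ∀ x ∈ I, ContinuousOn (Ψ x) (Set.Icc (-(2 * ι')) (2 * ι')))
    (hD : ∀ x ∈ I, ∀ u, |u| < 2 * ι' → HasDerivAt (Ψ x) (D x u) u)
    (hb : ∀ x ∈ I, ∀ u, |u| < 2 * ι' → lev ≤ ‖Ψ x u * (Ψ x u - e)‖ →
      sm e (Ψ x u) ≤ ι' * (D x u).re)
    (hk : ∀ x ∈ I, ∀ u, |u| < 2 * ι' → |(D x u).im| ≤ ι * (D x u).re)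
    (hor : ∀ x ∈ I, ∀ x' ∈ I, ∀ u, |u| ≤ 2 * ι' → lev ≤ ‖Ψ x u * (Ψ x u - e)‖ →
      ‖Ψ x' u - Ψ x u‖ ≤ C0 * |x - x'| * sm e (Ψ x u) ∧
        |(Ψ x' u - Ψ x u).im| ≤ ι * |x - x'| * sm e (Ψ x u))
    (real : ∀ x ∈ I, ∀ u, |u| ≤ 2 * ι' → lev ≤ ‖Ψ x u * (Ψ x u - e)‖ →
      |(Ψ x u).im| ≤ ι * sm e (Ψ x u)) : PW Ψ I e ι ι' C0 lev := by
  have mv : ∀ x ∈ I, ∀ (L : ℂ →L[ℝ] ℝ) (a b s : ℝ), -(2 * ι') ≤ a → a ≤ b → b ≤ 2 * ι' →
      (∀ u ∈ Set.Ioo a b, s ≤ L (D x u)) → s * (b - a) ≤ L (Ψ x b - Ψ x a) := by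
    intro x hx L a b s ha hab hb2 H
    have hd : ∀ u ∈ interior (Set.Icc a b), HasDerivAt (L ∘ Ψ x) (L (D x u)) u := by
      intro u hu
      rw [interior_Icc] at hu
      exact L.hasFDerivAt.comp_hasDerivAt u
        (hD x hx u (abs_lt.2 ⟨by linarith [hu.1], by linarith [hu.2]⟩))
    rw [map_sub]
    exact (convex_Icc a b).mul_sub_le_image_sub_of_le_deriv
      (L.continuous.comp_continuousOn ((hc x hx).mono (Set.Icc_subset_Icc ha hb2)))
      (fun u hu => (hd u hu).differentiableAt.differentiableWithinAt)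
      (fun u hu => by rw [(hd u hu).deriv]; exact H u (by rwa [interior_Icc] at hu))
      a (Set.left_mem_Icc.2 hab) b (Set.right_mem_Icc.2 hab) hab
  refine ⟨h0, h1, hc, fun x hx a b s ha hab hb2 H => ?_, fun x hx a b ha hab hb2 => ?_, hor, real⟩
  · exact mv x hx (ι' • Complex.reCLM) a b s ha hab hb2 fun u hu =>
      (H u (Set.Ioo_subset_Icc_self hu)).2.trans (hb x hx u
        (abs_lt.2 ⟨by linarith [hu.1], by linarith [hu.2]⟩) (H u (Set.Ioo_subset_Icc_self hu)).1)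
  · have k := fun u (hu : u ∈ Set.Ioo a b) =>
      abs_le.1 (hk x hx u (abs_lt.2 ⟨by linarith [hu.1], by linarith [hu.2]⟩))
    have a1 := mv x hx (ι • Complex.reCLM + Complex.imCLM) a b 0 ha hab hb2 fun u hu => by
      show 0 ≤ ι * (D x u).re + (D x u).im
      linarith [(k u hu).1]
    have a2 := mv x hx (ι • Complex.reCLM - Complex.imCLM) a b 0 ha hab hb2 fun u hu => by
      show 0 ≤ ι * (D x u).re - (D x u).im
      linarith [(k u hu).2]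
    rw [zero_mul] at a1 a2
    have a3 : 0 ≤ ι * (Ψ x b - Ψ x a).re + (Ψ x b - Ψ x a).im := a1
    have a4 : 0 ≤ ι * (Ψ x b - Ψ x a).re - (Ψ x b - Ψ x a).im := a2
    exact abs_le.2 ⟨by linarith, by linarith⟩

theorem zp (c : E ≃L[ℂ] (σ → ℂ)) {Z K : Set E} (hZ : IsCompact Z) {ζ v : E → ℂ}
    (hζ : ∀ y ∈ Z, AnalyticAt ℂ ζ y) (hv : ∀ y ∈ Z, AnalyticAt ℂ v y)
    {e κ ρ t ι ι' C0 lev : ℝ} {y0 : E} (hy0 : y0 ∈ Z) {Ψ : ℝ → ℝ → ℂ} {I : Set ℝ}
    (hW : PW Ψ I e ι ι' C0 lev) (hI : ∀ x, |x - (ζ y0).re| ≤ 2 * ρ → x ∈ I) (he : 0 ≤ e)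
    (hs : v y0 * (v y0 - e) ≠ 0) (hκ1 : κ ≤ 1 / 8) (hι : ι ≤ κ / 512)
    (ht : t + 2 * ι' ≤ ρ / 8) (hC0 : 0 ≤ C0) (hC : C0 * ρ ≤ κ / 4) (hρ1 : ρ ≤ 64)
    (hlev : lev ≤ (1 - 3 * κ) ^ 2 * ‖v y0 * (v y0 - e)‖) (h0 : |(ζ y0).im| ≤ t)
    (H : ∀ y ∈ Z, ‖ζ y - (ζ y0).re‖ ≤ 2 * ρ → ‖v y - v y0‖ ≤ 2 * κ * sm e (v y0) →
      |(ζ y).im| ≤ t ∧
        (y ∉ K → |(v y * (v y - e)).im| ≤ (κ / 512) ^ 2 * ‖v y * (v y - e)‖ ∧ NoPeak Z y) ∧
        (y ∈ K → |(ζ y).im| ≤ ι' ∧ v y = Ψ (ζ y).re (ζ y).im))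
    (hf : |(ζ y0).im| ≤ 2 * ι' → v y0 = Ψ (ζ y0).re (ζ y0).im → y0 ∈ K) : y0 ∈ K := by
  have hι' := hW.pos
  have hι0 : 0 < ι := hι'.trans_le hW.le
  have hκ : 0 < κ := by linarith
  have ht0 : 0 ≤ t := (abs_nonneg _).trans h0
  have hρ : 0 < ρ := by linarith
  have hs0 : 0 < sm e (v y0) := lt_min (norm_pos_iff.2 (left_ne_zero_of_mul hs))
    (norm_pos_iff.2 (right_ne_zero_of_mul hs))
  have hks := mul_pos hκ hs0
  have hks1 := mul_le_mul_of_nonneg_right hκ1 hs0.le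
  have hx0 : (ζ y0).re ∈ I := hI _ (by simp [hρ.le])
  have hre : ∀ (y) (x r : ℝ), ‖ζ y - x‖ ≤ r → |(ζ y).re - x| ≤ r := by
    intro y x r h
    have := Complex.abs_re_le_norm (ζ y - x)
    simp only [Complex.sub_re, Complex.ofReal_re] at this; linarith
  refine zp_two c (K := K) hZ hζ hv hy0 (Ψ := Ψ) hs0 hκ hκ1 hι0 (by linarith) hι' ht hC0 hC
    (by nlinarith) hlev h0 (fun y1 hy1 a1 a2 => ?_) (hW.cont _ hx0) (hW.grow _ hx0)
    (hW.cone _ hx0) (fun x u b1 b2 => hW.hor x (hI x (by linarith)) _ hx0 u (by linarith))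
    (hW.real _ hx0) hf
  obtain ⟨b1, b2, b3⟩ := H y1 hy1 (by linarith) (by linarith)
  refine ⟨b1, ?_, fun h => (b2 h).2, b3⟩
  have c1 := sm_le e (v y1) (v y0)
  have c2 := sm_le e (v y0) (v y1)
  rw [norm_sub_rev] at c2
  have c3 : κ / 32 * sm e (v y1) ≤ κ / 32 * (2 * sm e (v y0)) :=
    mul_le_mul_of_nonneg_left (by linarith) (by positivity)
  refine (zp_one c hZ hζ hv (e := e) (τ := κ / 32) (θ := κ / 512) (ρ := ρ) hy1 hρ (by positivity)
    (by linarith) (by linarith) (by linarith) (fun y hy d1 d2 => ?_) (by linarith)).trans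
    (by linarith)
  have d3 : ‖ζ y - (ζ y0).re‖ ≤ 2 * ρ := by
    have e1 := norm_add_le (ζ y - (ζ y1).re) ((((ζ y1).re - (ζ y0).re : ℝ) : ℂ))
    rw [Complex.norm_real, Real.norm_eq_abs, Complex.ofReal_sub, sub_add_sub_cancel] at e1
    linarith [hre y1 _ _ a1]
  have d4 : ‖v y - v y0‖ ≤ 2 * κ * sm e (v y0) := by
    have e1 := norm_add_le (v y - v y1) (v y1 - v y0)
    rw [sub_add_sub_cancel] at e1
    linarith
  obtain ⟨f1, f2, f3⟩ := H y hy d3 d4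
  refine ⟨by linarith, ?_⟩
  by_cases hyK : y ∈ K
  · left
    obtain ⟨g1, g2⟩ := f3 hyK
    have g3 := hW.real _ (hI _ (hre y _ _ d3)) (ζ y).im (by linarith) (by
      rw [← g2]; exact hlev.trans (pp_lower (by linarith) (by linarith)))
    rw [← g2] at g3
    exact g3.trans (mul_le_mul_of_nonneg_right hι (sm_nonneg _ _))
  · exact (thin_alg he (by positivity) (by linarith) (f2 hyK).1).imp_right
      fun h => ⟨h, (f2 hyK).2⟩

end Pool.Agent.HULL.Z59
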